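import Pool.Agent.H414.LT.Defs

/-!
Definitions of the project CA: the angles at consecutive primes.

From `Pool.Agent.H414.LT`: `IsSystem a` (integers with `a p ^ 2 < 4 p` for all primes `p`), `tr a p = a p / √p`,
`U n (2 cos θ) = sin ((n + 1) θ) / sin θ`, `primesUpTo x` (the primes `p ≤ x`).
-/

set_option autoImplicit false

namespace Pool.Agent.H414.CA

open MeasureTheory Finset
open Pool.Agent.H414.LT (primesUpTo U tr)

/-- The Sato-Tate measure `2 sin ^ 2 (π x) dx` on `[0, 1]`. -/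
noncomputable def ST : Measure ℝ :=
  (volume.restrict (Set.Icc (0 : ℝ) 1)).withDensity fun x =>
    ENNReal.ofReal (2 * Real.sin (Real.pi * x) ^ 2)

/-- The angle `x_k ∈ [0, 1]` at the prime `p_k` (`p_0 = 2`, `p_1 = 3`, …): `a p_k = 2 √p_k cos (π x_k)`. -/
noncomputable def angle (a : ℕ → ℤ) (k : ℕ) : ℝ :=
  Real.arccos ((a (Nat.nth Nat.Prime k) : ℝ) / (2 * √(Nat.nth Nat.Prime k : ℝ))) / Real.pi

/-- A stationary process `X 0, X 1, …` of random variables with the Sato-Tate law. -/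
structure IsProc {Ω : Type} [MeasurableSpace Ω] (μ : Measure Ω) (X : ℕ → Ω → ℝ) : Prop where
  /-- `μ` is a probability measure -/
  prob : IsProbabilityMeasure μ
  /-- the `X i` are measurable -/
  meas : ∀ i, Measurable (X i)
  /-- their law is the Sato-Tate measure -/
  law : ∀ i, μ.map (X i) = ST
  /-- the law of `(X i, …, X (i + s - 1))` does not depend on `i` -/
  stat : ∀ s i : ℕ, μ.map (fun (ω : Ω) (j : Fin s) => X (i + j) ω) = μ.map fun (ω : Ω) (j : Fin s) => X j ω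

/-- The bounds which the Riemann hypothesis gives for the symmetric powers, with the twists `c i`. -/
def IsRH (c : ℕ → ℕ → ℂ) (a : ℕ → ℤ) : Prop :=
  ∀ (i : ℕ) (ε : ℝ), 0 < ε → ∃ C : ℝ, ∀ n x : ℕ, 1 ≤ n →
    ‖∑ p ∈ primesUpTo x, c i p * (U n (tr a p) : ℝ)‖ ≤ C * ((n : ℝ) + 1) * ((x : ℝ) + 1) ^ (1 / 2 + ε)

end Pool.Agent.H414.CA
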