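import Pool.Agent.H414.CA.Spec

/-!
Project CA, task Den (helper703): density of the polynomials (Stone-Weierstrass).
-/

set_option autoImplicit false

namespace Pool.Agent.H414.CA

open MeasureTheory Finset Filter Topology

namespace Den

/-- the unit cube -/
abbrev Q (s : ℕ) : Type := Fin s → Set.Icc (0 : ℝ) 1

/-- the projection onto the cube -/
noncomputable def cl {s : ℕ} (x : Fin s → ℝ) : Q s := fun j => Set.projIcc 0 1 zero_le_one (x j)

/-- the coordinates -/
noncomputable def co {s : ℕ} (j : Fin s) : C(Q s, ℝ) := ⟨fun q => (q j : ℝ), by fun_prop⟩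

/-- the monomials -/
noncomputable def M {s : ℕ} (e : Fin s → ℕ) : C(Q s, ℝ) := ∏ j, co j ^ e j

lemma M_apply {s : ℕ} (e : Fin s → ℕ) (q : Q s) : M e q = ∏ j, (q j : ℝ) ^ e j := by
  simp [M, co, ContinuousMap.coe_prod, Finset.prod_apply]

lemma mono_eq (s : ℕ) (e : Fin s → ℕ) (x : Fin s → ℝ) : mono s e x = M e (cl x) := by
  rw [M_apply]
  unfold mono cl
  simp only [Set.coe_projIcc]

lemma meas_cl {s : ℕ} {Ω : Type} [MeasurableSpace Ω] {X : Fin s → Ω → ℝ}
    (h : ∀ j, Measurable (X j)) : Measurable (fun w => cl (fun j => X j w)) := by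
  rw [measurable_pi_iff]
  intro j
  exact (continuous_projIcc (h := zero_le_one (α := ℝ))).measurable.comp (h j)

lemma cl_eq {s : ℕ} {x : Fin s → ℝ} (h : ∀ j, x j ∈ Set.Icc (0 : ℝ) 1) :
    (fun j => ((cl x) j : ℝ)) = x := by
  funext j
  unfold cl
  rw [Set.projIcc_of_mem zero_le_one (h j)]

section equi

variable {s : ℕ} {Ω : Type} [MeasurableSpace Ω] (μ : Measure Ω) [IsProbabilityMeasure μ]
  (y : ℕ → Q s) (Y : Ω → Q s)

/-- the mean -/
noncomputable def av' (g : C(Q s, ℝ)) (K : ℕ) : ℝ := (∑ k ∈ range K, g (y k)) / K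

lemma av_add (f g : C(Q s, ℝ)) (K : ℕ) : av' y (f + g) K = av' y f K + av' y g K := by
  unfold av'
  simp only [ContinuousMap.add_apply, Finset.sum_add_distrib, add_div]

lemma av_sub (f g : C(Q s, ℝ)) (K : ℕ) : av' y (f - g) K = av' y f K - av' y g K := by
  unfold av'
  simp only [ContinuousMap.sub_apply, Finset.sum_sub_distrib, sub_div]

lemma av_smul (c : ℝ) (g : C(Q s, ℝ)) (K : ℕ) : av' y (c • g) K = c * av' y g K := by
  unfold av'
  simp only [ContinuousMap.smul_apply, smul_eq_mul, ← Finset.mul_sum, mul_div_assoc]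

lemma av_le (g : C(Q s, ℝ)) (K : ℕ) : |av' y g K| ≤ ‖g‖ := by
  unfold av'
  rw [abs_div, Nat.abs_cast]
  refine div_le_of_le_mul₀ (Nat.cast_nonneg K) (norm_nonneg g) ?_
  refine (Finset.abs_sum_le_sum_abs _ _).trans ?_
  refine (Finset.sum_le_sum fun k _ => g.norm_coe_le_norm (y k)).trans ?_
  rw [Finset.sum_const, Finset.card_range, nsmul_eq_mul, mul_comm]

variable {Y}

lemma int_ok (hY : Measurable Y) (g : C(Q s, ℝ)) : Integrable (fun w => g (Y w)) μ :=
  Integrable.of_bound (g.continuous.measurable.comp hY).aestronglyMeasurable ‖g‖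
    (Eventually.of_forall fun w => g.norm_coe_le_norm (Y w))

lemma int_le (g : C(Q s, ℝ)) : |∫ w, g (Y w) ∂μ| ≤ ‖g‖ := by
  have h := norm_integral_le_of_norm_le_const (μ := μ) (f := fun w => g (Y w))
    (Eventually.of_forall fun w => g.norm_coe_le_norm (Y w))
  rw [probReal_univ, mul_one] at h
  exact h

lemma equi (hY : Measurable Y)
    (h : ∀ e : Fin s → ℕ, Tendsto (av' y (M e)) atTop (𝓝 (∫ w, M e (Y w) ∂μ))) (g : C(Q s, ℝ)) :
    Tendsto (av' y g) atTop (𝓝 (∫ w, g (Y w) ∂μ)) := by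
  let G : Submodule ℝ C(Q s, ℝ) :=
    { carrier := {g | Tendsto (av' y g) atTop (𝓝 (∫ w, g (Y w) ∂μ))}
      add_mem' := by
        intro f g hf hg
        have h1 : ∫ w, (f + g) (Y w) ∂μ = (∫ w, f (Y w) ∂μ) + ∫ w, g (Y w) ∂μ :=
          integral_add (int_ok μ hY f) (int_ok μ hY g)
        show Tendsto (av' y (f + g)) atTop (𝓝 (∫ w, (f + g) (Y w) ∂μ))
        rw [h1]
        exact (hf.add hg).congr fun K => (av_add y f g K).symm
      zero_mem' := by
        show Tendsto (av' y 0) atTop (𝓝 (∫ w, (0 : C(Q s, ℝ)) (Y w) ∂μ))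
        have h1 : ∫ w, (0 : C(Q s, ℝ)) (Y w) ∂μ = 0 := by simp
        rw [h1]
        refine tendsto_const_nhds.congr fun K => ?_
        simp [av']
      smul_mem' := by
        intro c g hg
        have h1 : ∫ w, (c • g) (Y w) ∂μ = c * ∫ w, g (Y w) ∂μ := integral_const_mul c _
        show Tendsto (av' y (c • g)) atTop (𝓝 (∫ w, (c • g) (Y w) ∂μ))
        rw [h1]
        exact (hg.const_mul c).congr fun K => (av_smul y c g K).symm }
  set A : Subalgebra ℝ C(Q s, ℝ) := Algebra.adjoin ℝ (Set.range (co (s := s))) with hA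
  have hcl : ∀ φ ∈ Submonoid.closure (Set.range (co (s := s))), ∃ e : Fin s → ℕ, φ = M e := by
    intro φ hφ
    induction hφ using Submonoid.closure_induction with
    | mem x hx =>
      obtain ⟨j, rfl⟩ := hx
      refine ⟨fun i => if i = j then 1 else 0, ?_⟩
      unfold M
      simp only [pow_ite, pow_one, pow_zero, Finset.prod_ite_eq', Finset.mem_univ, if_true]
    | one => exact ⟨fun _ => 0, by simp [M]⟩
    | mul x z _ _ hx hz =>
      obtain ⟨e, rfl⟩ := hx
      obtain ⟨e', rfl⟩ := hz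
      refine ⟨fun i => e i + e' i, ?_⟩
      unfold M
      rw [← Finset.prod_mul_distrib]
      exact Finset.prod_congr rfl fun i _ => (pow_add _ _ _).symm
  have hAG : ∀ φ ∈ A, φ ∈ G := by
    intro φ hφ
    have h1 : φ ∈ Subalgebra.toSubmodule A := hφ
    rw [hA, Algebra.adjoin_eq_span] at h1
    have h2 : Submodule.span ℝ (Submonoid.closure (Set.range (co (s := s))) :
        Set C(Q s, ℝ)) ≤ G := by
      refine Submodule.span_le.2 fun ψ hψ => ?_
      obtain ⟨e, rfl⟩ := hcl ψ hψ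
      exact h e
    exact h2 h1
  have hsep : A.SeparatesPoints := by
    intro p q hpq
    obtain ⟨j, hj⟩ := Function.ne_iff.1 hpq
    refine ⟨co j, ⟨co j, Algebra.subset_adjoin ⟨j, rfl⟩, rfl⟩, ?_⟩
    intro h1
    exact hj (Subtype.ext h1)
  rw [Metric.tendsto_atTop]
  intro ε hε
  obtain ⟨⟨g', hg'⟩, hn⟩ :=
    ContinuousMap.exists_mem_subalgebra_near_continuousMap_of_separatesPoints A hsep g (ε / 3)
      (by positivity)
  have hG' : Tendsto (av' y g') atTop (𝓝 (∫ w, g' (Y w) ∂μ)) := hAG g' hg'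
  rw [Metric.tendsto_atTop] at hG'
  obtain ⟨N, hN⟩ := hG' (ε / 3) (by positivity)
  refine ⟨N, fun K hK => ?_⟩
  have h1 := hN K hK
  have h2 := av_le y (g' - g) K
  have h3 := int_le μ (Y := Y) (g' - g)
  have h4 : ∫ w, (g' - g) (Y w) ∂μ = (∫ w, g' (Y w) ∂μ) - ∫ w, g (Y w) ∂μ :=
    integral_sub (int_ok μ hY g') (int_ok μ hY g)
  rw [h4] at h3
  rw [av_sub] at h2
  have h5 : ‖g' - g‖ < ε / 3 := hn
  rw [Real.dist_eq] at h1 ⊢
  rw [abs_lt] at h1 ⊢
  rw [abs_le] at h2 h3
  constructor <;> linarith [h1.1, h1.2, h2.1, h2.2, h3.1, h3.2]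

end equi

lemma ST_mem : ∀ᵐ x ∂ST, x ∈ Set.Icc (0 : ℝ) 1 := by
  unfold ST
  exact (withDensity_absolutelyContinuous _ _).ae_le (ae_restrict_mem measurableSet_Icc)

lemma angle_mem (a : ℕ → ℤ) (k : ℕ) : angle a k ∈ Set.Icc (0 : ℝ) 1 := by
  unfold angle
  constructor
  · exact div_nonneg (Real.arccos_nonneg _) Real.pi_pos.le
  · rw [div_le_one Real.pi_pos]
    exact Real.arccos_le_pi _

end Den

open Den in
theorem den : S_DEN := by
  intro Ω _ μ X hX a s hm f hf
  haveI := hX.prob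
  set y : ℕ → Q s := fun k => cl (fun j : Fin s => angle a (k + j)) with hy
  set Y : Ω → Q s := fun w => cl (fun j : Fin s => X j w) with hYd
  have hY : Measurable Y := meas_cl fun j => hX.meas j
  set g : C(Q s, ℝ) := ⟨fun q => f (fun j => (q j : ℝ)), by fun_prop⟩ with hg
  have h1 := equi μ y hY (fun e => by
    have h2 := hm e
    simp only [mono_eq] at h2
    exact h2) g
  have h2 : ∀ k, g (y k) = f (fun j => angle a (k + j)) := by
    intro k
    show f (fun j => ((cl (fun j : Fin s => angle a (k + j))) j : ℝ)) = _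
    rw [cl_eq fun j => angle_mem a _]
  have h3 : ∫ w, g (Y w) ∂μ = ∫ w, f (fun j => X j w) ∂μ := by
    refine integral_congr_ae ?_
    have h4 : ∀ᵐ w ∂μ, ∀ j : Fin s, X j w ∈ Set.Icc (0 : ℝ) 1 := by
      rw [ae_all_iff]
      intro j
      refine ae_of_ae_map (hX.meas j).aemeasurable ?_
      rw [hX.law]
      exact ST_mem
    filter_upwards [h4] with w hw
    show f (fun j => ((cl (fun j : Fin s => X j w)) j : ℝ)) = _
    rw [cl_eq hw]
  rw [h3] at h1
  refine h1.congr fun K => ?_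
  unfold av'
  simp only [h2]

end Pool.Agent.H414.CA
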