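import Pool.Agent.H414.CA.Spec

/-!
Task Eq of the project CA (helper414), proved by helper97: equal angles.
-/

set_option autoImplicit false

namespace Pool.Agent.H414.CA

open MeasureTheory Finset Filter Topology
open Pool.Agent.H414.LT (primesUpTo U tr IsSystem)

namespace Eq

theorem int_one : ∫ x in (0 : ℝ)..1, 2 * Real.sin (Real.pi * x) ^ 2 = 1 := by
  have h := intervalIntegral.integral_comp_mul_left (a := (0 : ℝ)) (b := 1)
    (fun x => Real.sin x ^ 2) Real.pi_ne_zero
  rw [intervalIntegral.integral_const_mul]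
  have h1 : ∫ x in (0 : ℝ)..1, Real.sin (Real.pi * x) ^ 2 =
      Real.pi⁻¹ • ∫ x in (Real.pi * 0)..(Real.pi * 1), Real.sin x ^ 2 := h
  rw [h1, integral_sin_sq, mul_zero, mul_one, Real.sin_zero, Real.sin_pi, smul_eq_mul]
  have := Real.pi_ne_zero
  field_simp
  ring

theorem st_univ : ST Set.univ = 1 := by
  have hc : Continuous (fun x : ℝ => 2 * Real.sin (Real.pi * x) ^ 2) := by fun_prop
  unfold ST
  rw [withDensity_apply _ MeasurableSet.univ, Measure.restrict_univ,
    ← ofReal_integral_eq_lintegral_ofReal (hc.continuousOn.integrableOn_compact isCompact_Icc)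
      (ae_of_all _ fun x => by positivity),
    integral_Icc_eq_integral_Ioc, ← intervalIntegral.integral_of_le zero_le_one, int_one,
    ENNReal.ofReal_one]

instance st_prob : IsProbabilityMeasure ST := ⟨st_univ⟩

theorem proc : IsProc ST (fun _ (x : ℝ) => x) where
  prob := st_prob
  meas := fun _ => measurable_id
  law := fun _ => Measure.map_id
  stat := fun _ _ => rfl

theorem st_le (a b : ℝ) (hab : a ≤ b) : ST.real (Set.Icc a b) ≤ 2 * (b - a) := by
  have h1 : ST (Set.Icc a b) ≤ ENNReal.ofReal (2 * (b - a)) := by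
    unfold ST
    rw [withDensity_apply _ measurableSet_Icc]
    calc ∫⁻ x in Set.Icc a b, ENNReal.ofReal (2 * Real.sin (Real.pi * x) ^ 2)
          ∂(volume.restrict (Set.Icc (0 : ℝ) 1)) ≤
        ∫⁻ _ in Set.Icc a b, ENNReal.ofReal 2 ∂(volume.restrict (Set.Icc (0 : ℝ) 1)) := by
          refine lintegral_mono fun x => ENNReal.ofReal_le_ofReal ?_
          have := Real.sin_sq_le_one (Real.pi * x)
          linarith
      _ = ENNReal.ofReal 2 * (volume.restrict (Set.Icc (0 : ℝ) 1)) (Set.Icc a b) := by
          rw [setLIntegral_const]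
      _ ≤ ENNReal.ofReal 2 * volume (Set.Icc a b) := by
          gcongr
          exact Measure.restrict_le_self
      _ = ENNReal.ofReal (2 * (b - a)) := by
          rw [Real.volume_Icc, ENNReal.ofReal_mul (by norm_num)]
  unfold Measure.real
  exact ENNReal.toReal_le_of_le_ofReal (by linarith) h1

/-- the test function -/
noncomputable def g (η x : ℝ) : ℝ := max 0 (2 - |x - 1 / 2| / η)

theorem g_cont (η : ℝ) : Continuous (g η) := by
  unfold g
  fun_prop

theorem g_nonneg (η x : ℝ) : 0 ≤ g η x := le_max_left _ _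

theorem g_le {η : ℝ} (hη : 0 < η) (x : ℝ) : g η x ≤ 2 := by
  unfold g
  refine max_le (by norm_num) ?_
  have : 0 ≤ |x - 1 / 2| / η := by positivity
  linarith

theorem g_one {η x : ℝ} (hη : 0 < η) (hx : |x - 1 / 2| ≤ η) : 1 ≤ g η x := by
  unfold g
  refine le_max_of_le_right ?_
  have : |x - 1 / 2| / η ≤ 1 := by
    rw [div_le_one hη]
    exact hx
  linarith

theorem g_int {η : ℝ} (hη : 0 < η) : ∫ x, g η x ∂ST ≤ 16 * η := by
  have h1 : ∫ x, g η x ∂ST ≤
      ∫ x, (Set.Icc (1 / 2 - 2 * η) (1 / 2 + 2 * η)).indicator (fun _ => (2 : ℝ)) x ∂ST := by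
    refine integral_mono ?_ ((integrable_const _).indicator measurableSet_Icc) fun x => ?_
    · refine Integrable.of_bound (g_cont η).aestronglyMeasurable 2 (ae_of_all _ fun x => ?_)
      rw [Real.norm_eq_abs, abs_of_nonneg (g_nonneg η x)]
      exact g_le hη x
    · by_cases hx : x ∈ Set.Icc (1 / 2 - 2 * η) (1 / 2 + 2 * η)
      · rw [Set.indicator_of_mem hx]
        exact g_le hη x
      · rw [Set.indicator_of_notMem hx]
        unfold g
        refine max_le le_rfl ?_
        have h2 : 2 * η ≤ |x - 1 / 2| := by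
          by_contra hcon
          push Not at hcon
          rw [abs_lt] at hcon
          exact hx ⟨by linarith [hcon.1], by linarith [hcon.2]⟩
        have h3 : 2 ≤ |x - 1 / 2| / η := by
          rw [le_div_iff₀ hη]
          exact h2
        linarith
  rw [integral_indicator_const _ measurableSet_Icc, smul_eq_mul] at h1
  have h4 := st_le (1 / 2 - 2 * η) (1 / 2 + 2 * η) (by linarith)
  linarith

end Eq

open Eq in
theorem eqa (hT6 : S_T6) : S_EQ := by
  intro c hc
  obtain ⟨a, hs, hR, hlim⟩ := hT6 ℝ ST (fun _ x => x) proc c hc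
  -- the differences
  have hd : Tendsto (fun K : ℕ => (∑ k ∈ range K, |angle a k - angle a (k + 1)|) / K) atTop
      (𝓝 0) := by
    have h := hlim 2 (fun x => |x 0 - x 1|) (by fun_prop)
    have h1 : ∫ w : ℝ, (fun x : Fin 2 → ℝ => |x 0 - x 1|) (fun _ => w) ∂ST = 0 := by
      simp
    rw [h1] at h
    exact h
  refine ⟨a, hs, hR, hd, ?_⟩
  have hg : ∀ η : ℝ, Tendsto (fun K : ℕ => (∑ k ∈ range K, g η (angle a k)) / K) atTop
      (𝓝 (∫ x, g η x ∂ST)) := by
    intro η
    exact hlim 1 (fun x => g η (x 0)) ((g_cont η).comp (continuous_apply 0))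
  -- the pointwise bound
  have key : ∀ η : ℝ, 0 < η → ∀ K : ℕ,
      (((range K).filter fun k => angle a k < 1 / 2 ∧ 1 / 2 ≤ angle a (k + 1)).card : ℝ) / K ≤
        (1 / η) * ((∑ k ∈ range K, |angle a k - angle a (k + 1)|) / K) +
          (∑ k ∈ range K, g η (angle a k)) / K := by
    intro η hη K
    rw [← mul_div_assoc, ← add_div]
    refine div_le_div_of_nonneg_right ?_ (Nat.cast_nonneg K)
    rw [mul_sum, ← sum_add_distrib, card_filter]
    push_cast
    refine sum_le_sum fun k _ => ?_
    have n1 : 0 ≤ 1 / η * |angle a k - angle a (k + 1)| := by positivity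
    have n2 := g_nonneg η (angle a k)
    split_ifs with h
    · by_cases h1 : η ≤ |angle a k - angle a (k + 1)|
      · have : 1 ≤ 1 / η * |angle a k - angle a (k + 1)| := by
          rw [one_div, inv_mul_eq_div, le_div_iff₀ hη, one_mul]
          exact h1
        linarith
      · push Not at h1
        rw [abs_lt] at h1
        have h2 : |angle a k - 1 / 2| ≤ η := by
          rw [abs_le]
          constructor <;> linarith [h.1, h.2, h1.1, h1.2]
        have := g_one hη h2
        linarith
    · linarith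
  rw [Metric.tendsto_atTop]
  intro δ hδ
  have hη : 0 < δ / 64 := by positivity
  have h1 := (hd.const_mul (1 / (δ / 64))).add (hg (δ / 64))
  rw [mul_zero, zero_add] at h1
  have h2 : ∫ x, g (δ / 64) x ∂ST < δ := by
    have := g_int hη
    linarith
  obtain ⟨K₀, hK⟩ := eventually_atTop.1 (h1.eventually (gt_mem_nhds h2))
  refine ⟨K₀, fun K hKK => ?_⟩
  rw [Real.dist_eq, sub_zero, abs_of_nonneg (by positivity)]
  exact (key _ hη K).trans_lt (hK K hKK)

end Pool.Agent.H414.CA
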