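import Pool.Agent.H414.CA.Spec

/-!
Project CA (helper414), part Lim (helper977): the limits.
-/

set_option autoImplicit false

namespace Pool.Agent.H414.CA

open MeasureTheory Finset Filter Topology
open Pool.Agent.H414.LT (primesUpTo U tr IsSystem)

namespace Lim

lemma m_pos (n : ℕ) : 1 ≤ m n := Nat.log_pos one_lt_two (by omega)

lemma t_succ (n : ℕ) : t (n + 1) = t n + m n := by
  unfold t
  rw [sum_range_succ]

lemma t_zero : t 0 = 0 := rfl

lemma t_mono : Monotone t := monotone_nat_of_le_succ fun n => by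
  rw [t_succ]
  exact Nat.le_add_right _ _

lemma t_ge (n : ℕ) : n ≤ t n := by
  induction n with
  | zero => exact Nat.zero_le _
  | succ n ih =>
    rw [t_succ]
    have := m_pos n
    omega

lemma ex_block (K : ℕ) : ∃ N, t N ≤ K ∧ K < t (N + 1) := by
  classical
  have h : ∃ n, K < t (n + 1) := ⟨K, lt_of_lt_of_le (Nat.lt_succ_self K) (t_ge (K + 1))⟩
  refine ⟨Nat.find h, ?_, Nat.find_spec h⟩
  rcases Nat.eq_zero_or_pos (Nat.find h) with h0 | h0
  · rw [h0, t_zero]
    exact Nat.zero_le _
  · have h1 := Nat.find_min h (Nat.sub_lt h0 one_pos)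
    have e : Nat.find h - 1 + 1 = Nat.find h := by omega
    rw [e] at h1
    exact not_lt.1 h1

lemma m_top : Tendsto m atTop atTop := by
  refine tendsto_atTop.2 fun R => ?_
  filter_upwards [eventually_ge_atTop (2 ^ R)] with n hn
  unfold m
  exact Nat.le_log_of_pow_le one_lt_two (by omega)

lemma m_pow (n : ℕ) : 2 ^ m n ≤ n + 2 := Nat.pow_log_le_self 2 (by omega)

lemma m_sq : Tendsto (fun N : ℕ => (m N : ℝ) / √(N : ℝ)) atTop (𝓝 0) := by
  have h1 : Tendsto (fun n : ℕ => (n : ℝ) ^ 2 / (2 : ℝ) ^ n) atTop (𝓝 0) :=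
    tendsto_pow_const_div_const_pow_of_one_lt 2 (by norm_num)
  have h2 : Tendsto (fun N : ℕ => 3 * ((m N : ℝ) ^ 2 / (2 : ℝ) ^ m N)) atTop (𝓝 0) := by
    have := (h1.comp m_top).const_mul 3
    rwa [mul_zero] at this
  have h3 : Tendsto (fun N : ℕ => (m N : ℝ) ^ 2 / N) atTop (𝓝 0) := by
    refine squeeze_zero' ?_ ?_ h2
    · exact Eventually.of_forall fun N => by positivity
    · filter_upwards [eventually_ge_atTop 1] with N hN
      have hN' : (1 : ℝ) ≤ N := by exact_mod_cast hN
      have h4 : (2 : ℝ) ^ m N ≤ 3 * N := by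
        have : ((2 ^ m N : ℕ) : ℝ) ≤ ((N + 2 : ℕ) : ℝ) := by exact_mod_cast m_pow N
        push_cast at this
        linarith
      rw [← mul_div_assoc, div_le_div_iff₀ (by linarith) (by positivity)]
      have : (0 : ℝ) ≤ (m N : ℝ) ^ 2 := by positivity
      nlinarith
  have h5 := (Real.continuous_sqrt.tendsto 0).comp h3
  rw [Real.sqrt_zero] at h5
  refine h5.congr fun N => ?_
  show √((m N : ℝ) ^ 2 / N) = m N / √(N : ℝ)
  rw [Real.sqrt_div' _ (Nat.cast_nonneg N), Real.sqrt_sq (Nat.cast_nonneg _)]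

lemma N_div_t : Tendsto (fun N : ℕ => (N : ℝ) / t N) atTop (𝓝 0) := by
  rw [Metric.tendsto_atTop]
  intro ε hε
  obtain ⟨R, hR⟩ := exists_nat_gt (2 / ε)
  have hR0 : (0 : ℝ) < R := lt_trans (by positivity) hR
  have hlow : ∀ N : ℕ, R * N ≤ t (N + 2 ^ R) := by
    intro N
    induction N with
    | zero => simp
    | succ N ih =>
      have e : N + 1 + 2 ^ R = (N + 2 ^ R) + 1 := by ring
      rw [e, t_succ, Nat.mul_succ]
      refine Nat.add_le_add ih ?_
      unfold m
      exact Nat.le_log_of_pow_le one_lt_two (by omega)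
  refine ⟨2 ^ (R + 1) + 1, fun N hN => ?_⟩
  have hN1 : 1 ≤ N := (Nat.le_add_left 1 _).trans hN
  have hNp : (0 : ℝ) < N := by exact_mod_cast hN1
  have htp : (0 : ℝ) < t N := lt_of_lt_of_le hNp (by exact_mod_cast t_ge N)
  rw [Real.dist_eq, sub_zero, abs_of_nonneg (by positivity), div_lt_iff₀ htp]
  have h1 := hlow (N - 2 ^ R)
  have h2 : N - 2 ^ R + 2 ^ R = N := Nat.sub_add_cancel (by
    rw [pow_succ] at hN
    omega)
  rw [h2] at h1
  have h3 : N ≤ 2 * (N - 2 ^ R) := by
    rw [pow_succ] at hN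
    omega
  have h4 : (R : ℝ) * (N / 2) ≤ t N := by
    have h5 : (N : ℝ) ≤ 2 * ((N - 2 ^ R : ℕ) : ℝ) := by exact_mod_cast h3
    have h6 : (R : ℝ) * ((N - 2 ^ R : ℕ) : ℝ) ≤ t N := by exact_mod_cast h1
    nlinarith
  have h7 : 2 < ε * R := by
    rw [div_lt_iff₀ hε] at hR
    linarith
  nlinarith

lemma trunc_sub (y : ℝ) : |(trunc y : ℝ) - y| ≤ 1 := by
  unfold trunc
  rw [abs_le]
  split_ifs with h
  · have h1 := Int.floor_le y
    have h2 := Int.lt_floor_add_one y
    constructor <;> linarith
  · have h1 := Int.le_ceil y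
    have h2 := Int.ceil_lt_add_one y
    constructor <;> linarith

lemma trunc_abs (y : ℝ) : |(trunc y : ℝ)| ≤ |y| := by
  unfold trunc
  split_ifs with h
  · rw [abs_of_nonneg h, abs_of_nonneg (by exact_mod_cast Int.floor_nonneg.2 h)]
    exact Int.floor_le y
  · have h' : y ≤ 0 := (not_le.1 h).le
    have h1 : (⌈y⌉ : ℝ) ≤ 0 := by
      exact_mod_cast Int.ceil_le.2 (by simpa using h')
    rw [abs_of_nonpos h', abs_of_nonpos h1]
    have := Int.le_ceil y
    linarith

lemma trunc_meas : Measurable trunc := by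
  unfold trunc
  exact Measurable.ite measurableSet_Ici Int.measurable_floor Int.measurable_ceil

lemma av_meas (k : ℕ) : Measurable (av k) := by
  unfold av bv
  refine Measurable.div_const (Real.continuous_arccos.measurable.comp ?_) _
  refine Measurable.div_const ?_ _
  refine (measurable_from_top (f := fun z : ℤ => (z : ℝ))).comp (trunc_meas.comp ?_)
  exact (continuous_const.mul (Real.continuous_cos.comp (continuous_const.mul continuous_id))).measurable

lemma av_mem (k : ℕ) (x : ℝ) : av k x ∈ Set.Icc (0 : ℝ) 1 := by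
  unfold av
  refine ⟨div_nonneg (Real.arccos_nonneg _) Real.pi_pos.le, ?_⟩
  rw [div_le_one Real.pi_pos]
  exact Real.arccos_le_pi _

lemma pr_ge (k : ℕ) : k ≤ pr k := by
  have h : StrictMono (Nat.nth Nat.Prime) := Nat.nth_strictMono Nat.infinite_setOfPred_prime
  exact h.le_apply

lemma pr_pos (k : ℕ) : 0 < pr k := (Nat.prime_nth_prime k).pos

lemma av_close (δ : ℝ) (hδ : 0 < δ) : ∃ k0 : ℕ, ∀ k : ℕ, k0 ≤ k → ∀ x ∈ Set.Icc (0 : ℝ) 1,
    |av k x - x| < δ := by
  have huc : UniformContinuousOn Real.arccos (Set.Icc (-1 : ℝ) 1) :=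
    isCompact_Icc.uniformContinuousOn_of_continuous Real.continuous_arccos.continuousOn
  rw [Metric.uniformContinuousOn_iff] at huc
  obtain ⟨η, hη, h⟩ := huc (δ * Real.pi) (by positivity)
  obtain ⟨R, hR⟩ := exists_nat_gt (1 / η)
  refine ⟨R ^ 2, fun k hk x hx => ?_⟩
  have hR0 : (0 : ℝ) < R := lt_trans (by positivity) hR
  have hp : (0 : ℝ) < √(pr k : ℝ) := Real.sqrt_pos.2 (by exact_mod_cast pr_pos k)
  have hRp : (R : ℝ) ≤ √(pr k : ℝ) := by
    refine Real.le_sqrt_of_sq_le ?_
    exact_mod_cast hk.trans (pr_ge k)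
  set c := Real.cos (Real.pi * x) with hc
  set y := 2 * √(pr k : ℝ) * c with hy
  have hc1 : |c| ≤ 1 := Real.abs_cos_le_one _
  have hu1 : |(bv k x : ℝ) / (2 * √(pr k : ℝ))| ≤ 1 := by
    rw [abs_div, abs_of_pos (show 0 < 2 * √(pr k : ℝ) by positivity),
      div_le_one (by positivity)]
    refine (trunc_abs _).trans ?_
    rw [abs_mul, abs_of_pos (show 0 < 2 * √(pr k : ℝ) by positivity)]
    exact mul_le_of_le_one_right (by positivity) hc1
  have hu2 : |(bv k x : ℝ) / (2 * √(pr k : ℝ)) - c| < η := by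
    have e : (bv k x : ℝ) / (2 * √(pr k : ℝ)) - c = ((trunc y : ℝ) - y) / (2 * √(pr k : ℝ)) := by
      rw [hy]
      have : (bv k x : ℝ) = (trunc (2 * √(pr k : ℝ) * c) : ℝ) := rfl
      rw [this]
      field_simp
    rw [e, abs_div, abs_of_pos (show 0 < 2 * √(pr k : ℝ) by positivity),
      div_lt_iff₀ (by positivity)]
    have h1 := trunc_sub y
    rw [div_lt_iff₀ hη] at hR
    nlinarith
  have h2 := h _ (abs_le.1 hu1) _ (abs_le.1 hc1) (by rw [Real.dist_eq]; exact hu2)
  rw [Real.dist_eq, hc, Real.arccos_cos (mul_nonneg Real.pi_pos.le hx.1)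
    (mul_le_of_le_one_right Real.pi_pos.le hx.2)] at h2
  have e : av k x - x = (Real.arccos ((bv k x : ℝ) / (2 * √(pr k : ℝ))) - Real.pi * x) / Real.pi := by
    unfold av
    field_simp
  rw [e, abs_div, abs_of_pos Real.pi_pos, div_lt_iff₀ Real.pi_pos]
  exact h2

section proc

variable {Ω : Type} [MeasurableSpace Ω] {μ : Measure Ω} {X : ℕ → Ω → ℝ}

lemma X_mem (hX : IsProc μ X) (l : ℕ) : ∀ᵐ w ∂μ, X l w ∈ Set.Icc (0 : ℝ) 1 := by
  have h1 : ∀ᵐ x ∂ST, x ∈ Set.Icc (0 : ℝ) 1 := by
    have h2 : ∀ᵐ x ∂(volume.restrict (Set.Icc (0 : ℝ) 1)), x ∈ Set.Icc (0 : ℝ) 1 :=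
      ae_restrict_mem measurableSet_Icc
    exact (withDensity_absolutelyContinuous _ _).ae_le h2
  rw [← hX.law l] at h1
  exact ae_of_ae_map (hX.meas l).aemeasurable h1

/-- the means converge -/
lemma means (hX : IsProc μ X) (s : ℕ) (F : (Fin s → ℝ) → ℝ) (hF : Continuous F)
    (hF1 : ∀ x, |F x| ≤ 1) (ε : ℝ) (hε : 0 < ε) : ∃ B : ℕ, ∀ b : ℕ, B ≤ b → ∀ l : ℕ,
    |(∫ w, F (fun j => av (t b + l + j) (X (l + j) w)) ∂μ) - ∫ w, F (fun j => X j w) ∂μ| ≤ ε := by
  have := hX.prob
  have huc : UniformContinuousOn F (Set.Icc (0 : Fin s → ℝ) 1) :=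
    isCompact_Icc.uniformContinuousOn_of_continuous hF.continuousOn
  rw [Metric.uniformContinuousOn_iff] at huc
  obtain ⟨δ, hδ, h⟩ := huc ε hε
  obtain ⟨k0, hk0⟩ := av_close δ hδ
  refine ⟨k0, fun b hb l => ?_⟩
  -- measurability
  have m1 : Measurable fun w => F (fun j : Fin s => av (t b + l + j) (X (l + j) w)) :=
    hF.measurable.comp (measurable_pi_lambda _ fun j => (av_meas _).comp (hX.meas _))
  have m2 : Measurable fun w => F (fun j : Fin s => X (l + j) w) :=
    hF.measurable.comp (measurable_pi_lambda _ fun j => hX.meas _)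
  have i1 : Integrable (fun w => F (fun j : Fin s => av (t b + l + j) (X (l + j) w))) μ :=
    Integrable.of_bound m1.aestronglyMeasurable 1 (Eventually.of_forall fun w => hF1 _)
  have i2 : Integrable (fun w => F (fun j : Fin s => X (l + j) w)) μ :=
    Integrable.of_bound m2.aestronglyMeasurable 1 (Eventually.of_forall fun w => hF1 _)
  have hstat : ∫ w, F (fun j => X j w) ∂μ = ∫ w, F (fun j : Fin s => X (l + j) w) ∂μ := by
    have e1 : ∫ w, F (fun j : Fin s => X (l + j) w) ∂μ =
        ∫ x, F x ∂(μ.map fun (w : Ω) (j : Fin s) => X (l + j) w) := by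
      rw [integral_map (measurable_pi_lambda _ fun j => hX.meas _).aemeasurable
        hF.measurable.aestronglyMeasurable]
    have e2 : ∫ w, F (fun j : Fin s => X j w) ∂μ =
        ∫ x, F x ∂(μ.map fun (w : Ω) (j : Fin s) => X j w) := by
      rw [integral_map (measurable_pi_lambda _ fun j => hX.meas _).aemeasurable
        hF.measurable.aestronglyMeasurable]
    rw [e1, e2, hX.stat s l]
  rw [hstat, ← integral_sub i1 i2]
  have hae : ∀ᵐ w ∂μ, ‖F (fun j : Fin s => av (t b + l + j) (X (l + j) w)) -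
      F (fun j : Fin s => X (l + j) w)‖ ≤ ε := by
    have h1 : ∀ᵐ w ∂μ, ∀ j : Fin s, X (l + j) w ∈ Set.Icc (0 : ℝ) 1 :=
      ae_all_iff.2 fun j => X_mem hX (l + j)
    filter_upwards [h1] with w hw
    have h2 := h (fun j : Fin s => av (t b + l + j) (X (l + j) w))
      ⟨fun j => (av_mem _ _).1, fun j => (av_mem _ _).2⟩ (fun j : Fin s => X (l + j) w)
      ⟨fun j => (hw j).1, fun j => (hw j).2⟩ ((dist_pi_lt_iff hδ).2 fun j => by
        rw [Real.dist_eq]
        refine hk0 _ ?_ _ (hw j)
        have := t_ge b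
        omega)
    rw [Real.dist_eq] at h2
    exact h2.le
  have h3 := norm_integral_le_of_norm_le_const hae
  rwa [probReal_univ, mul_one, Real.norm_eq_abs] at h3

end proc

/-- sums over blocks -/
lemma sum_t (g : ℕ → ℝ) (N : ℕ) :
    ∑ k ∈ range (t N), g k = ∑ b ∈ range N, ∑ l ∈ range (m b), g (t b + l) := by
  induction N with
  | zero => simp [t_zero]
  | succ N ih => rw [sum_range_succ, ← ih, t_succ, sum_range_add]

/-- the last indices of a block -/
lemma sum_last (g : ℕ → ℝ) (G : ℝ) (hG : 0 ≤ G) (hg : ∀ k, |g k| ≤ G) (s b : ℕ) :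
    |∑ l ∈ range (m b), g (t b + l) -
      ∑ l ∈ (range (m b)).filter (fun l => l + s ≤ m b), g (t b + l)| ≤ s * G := by
  classical
  rw [← sum_filter_add_sum_filter_not (range (m b)) (fun l => l + s ≤ m b), add_sub_cancel_left]
  refine (abs_sum_le_sum_abs _ _).trans ((sum_le_card_nsmul _ _ G fun l _ => hg _).trans ?_)
  rw [nsmul_eq_mul]
  refine mul_le_mul_of_nonneg_right ?_ hG
  have h1 : (range (m b)).filter (fun l => ¬ (l + s ≤ m b)) ⊆ Ico (m b - s) (m b) := by
    intro l hl
    rw [mem_filter, mem_range] at hl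
    rw [mem_Ico]
    omega
  have h2 := card_le_card h1
  rw [Nat.card_Ico] at h2
  exact_mod_cast h2.trans (by omega)

end Lim

open Lim

theorem lim : S_LIM := by
  intro Ω _ μ X hX ω a ha s F hF hF1 hC
  obtain ⟨C, hC⟩ := hC
  have := hX.prob
  set I : ℝ := ∫ w, F (fun j => X j w) ∂μ with hI
  have hI1 : |I| ≤ 1 := by
    have h := norm_integral_le_of_norm_le_const (μ := μ) (f := fun w => F (fun j : Fin s => X j w))
      (C := 1) (Eventually.of_forall fun w => hF1 _)
    rwa [probReal_univ, mul_one, Real.norm_eq_abs] at h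
  have hC0 : 0 ≤ C := by
    have h := (abs_nonneg _).trans (hC 1)
    have h1 : (0 : ℝ) < m 1 := by exact_mod_cast m_pos 1
    rw [Nat.cast_one, Real.sqrt_one, mul_one] at h
    by_contra hneg
    rw [not_le] at hneg
    have := mul_neg_of_neg_of_pos hneg h1
    linarith
  set g : ℕ → ℝ := fun k => F (fun j => angle a (k + j)) - I with hg
  have hg2 : ∀ k, |g k| ≤ 2 := by
    intro k
    have h := abs_sub (F (fun j => angle a (k + j))) I
    have h1 := hF1 (fun j => angle a (k + j))
    show |F (fun j => angle a (k + j)) - I| ≤ 2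
    linarith
  -- it is enough to bound the sums of `g`
  have hmain : ∀ ε : ℝ, 0 < ε → ∀ᶠ K : ℕ in atTop, |∑ k ∈ range K, g k| ≤ ε * K := by
    intro ε hε
    obtain ⟨B, hB⟩ := means hX s F hF hF1 (ε / 2) (by positivity)
    -- the error terms
    have hE : Tendsto (fun N : ℕ => C * ((m N : ℝ) / √(N : ℝ)) + (2 * s : ℝ) * ((N : ℝ) / t N) +
        2 * ((m N : ℝ) / √(N : ℝ)) + (2 * t B : ℝ) * ((N : ℝ) / t N)) atTop (𝓝 0) := by
      have h := (((m_sq.const_mul C).add (N_div_t.const_mul (2 * s : ℝ))).add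
        (m_sq.const_mul 2)).add (N_div_t.const_mul (2 * t B : ℝ))
      simpa using h
    obtain ⟨N1, hN1⟩ := eventually_atTop.1 ((hE.eventually_le_const
      (show (0 : ℝ) < ε / 2 by positivity)).and (eventually_ge_atTop 1))
    filter_upwards [eventually_ge_atTop (t N1)] with K hK
    obtain ⟨N, h1, h2⟩ := ex_block K
    have hNN : N1 ≤ N := by
      by_contra hlt
      rw [not_le] at hlt
      have := t_mono (show N + 1 ≤ N1 by omega)
      omega
    obtain ⟨h3, h4⟩ := hN1 N hNN
    have hNp : (0 : ℝ) < N := by exact_mod_cast h4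
    have hNt : (N : ℝ) ≤ t N := by exact_mod_cast t_ge N
    have htp : (0 : ℝ) < t N := by linarith
    have hsN : (0 : ℝ) < √(N : ℝ) := Real.sqrt_pos.2 hNp
    -- the sum up to `t N`
    have hblock : |∑ k ∈ range (t N), g k| ≤ C * m N * √(N : ℝ) + 2 * s * N +
        (ε / 2 * t N + 2 * t B) := by
      rw [sum_t]
      have e1 : ∑ b ∈ range N, ∑ l ∈ range (m b), g (t b + l) =
          (∑ b ∈ range N, (∑ l ∈ range (m b), g (t b + l) -
            ∑ l ∈ (range (m b)).filter (fun l => l + s ≤ m b), g (t b + l))) +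
          (∑ b ∈ range N, ∑ l ∈ (range (m b)).filter (fun l => l + s ≤ m b),
            (F (fun j => av (t b + l + j) (X (l + j) (ω b))) -
              ∫ w, F (fun j => av (t b + l + j) (X (l + j) w)) ∂μ)) +
          ∑ b ∈ range N, ∑ l ∈ (range (m b)).filter (fun l => l + s ≤ m b),
            ((∫ w, F (fun j => av (t b + l + j) (X (l + j) w)) ∂μ) - I) := by
        rw [← sum_add_distrib, ← sum_add_distrib]
        refine sum_congr rfl fun b _ => ?_
        rw [add_assoc, ← sum_add_distrib]
        have e2 : ∀ l ∈ (range (m b)).filter (fun l => l + s ≤ m b), g (t b + l) =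
            F (fun j => av (t b + l + j) (X (l + j) (ω b))) -
              (∫ w, F (fun j => av (t b + l + j) (X (l + j) w)) ∂μ) +
              ((∫ w, F (fun j => av (t b + l + j) (X (l + j) w)) ∂μ) - I) := by
          intro l hl
          rw [mem_filter, mem_range] at hl
          have e3 : (fun j : Fin s => angle a (t b + l + j)) =
              fun j : Fin s => av (t b + l + j) (X (l + j) (ω b)) := by
            funext j
            have hj := j.2
            have h5 := ha b (l + j) (by omega)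
            have e4 : t b + l + (j : ℕ) = t b + (l + j) := by ring
            rw [e4]
            unfold angle av
            have h6 : a (Nat.nth Nat.Prime (t b + (l + j))) = bv (t b + (l + j)) (X (l + j) (ω b)) := h5
            rw [h6]
            rfl
          show F (fun j : Fin s => angle a (t b + l + j)) - I = _
          rw [e3]
          ring
        rw [← sum_congr rfl e2]
        ring
      rw [e1]
      have a1 : |∑ b ∈ range N, (∑ l ∈ range (m b), g (t b + l) -
            ∑ l ∈ (range (m b)).filter (fun l => l + s ≤ m b), g (t b + l))| ≤ 2 * s * N := by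
        refine (abs_sum_le_sum_abs _ _).trans ?_
        refine (sum_le_card_nsmul _ _ ((s : ℝ) * 2) fun b _ =>
          sum_last g 2 (by norm_num) hg2 s b).trans ?_
        rw [card_range, nsmul_eq_mul]
        linarith
      have a2 := hC N
      have a3 : |∑ b ∈ range N, ∑ l ∈ (range (m b)).filter (fun l => l + s ≤ m b),
            ((∫ w, F (fun j => av (t b + l + j) (X (l + j) w)) ∂μ) - I)| ≤
          ε / 2 * t N + 2 * t B := by
        have b1 : ∀ b ∈ range N, |∑ l ∈ (range (m b)).filter (fun l => l + s ≤ m b),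
            ((∫ w, F (fun j => av (t b + l + j) (X (l + j) w)) ∂μ) - I)| ≤
            ε / 2 * m b + if b < B then (2 : ℝ) * m b else 0 := by
          intro b _
          have hcard : (((range (m b)).filter (fun l => l + s ≤ m b)).card : ℝ) ≤ m b := by
            have := card_filter_le (range (m b)) (fun l => l + s ≤ m b)
            rw [card_range] at this
            exact_mod_cast this
          refine (abs_sum_le_sum_abs _ _).trans ?_
          split_ifs with hb
          · refine (sum_le_card_nsmul _ _ 2 fun l _ => ?_).trans ?_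
            · have h7 := norm_integral_le_of_norm_le_const (μ := μ)
                (f := fun w => F (fun j : Fin s => av (t b + l + j) (X (l + j) w)))
                (C := 1) (Eventually.of_forall fun w => hF1 _)
              rw [probReal_univ, mul_one, Real.norm_eq_abs] at h7
              have h8 := abs_sub (∫ w, F (fun j : Fin s => av (t b + l + j) (X (l + j) w)) ∂μ) I
              linarith
            · rw [nsmul_eq_mul]
              have : (0 : ℝ) ≤ m b := Nat.cast_nonneg _
              nlinarith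
          · refine (sum_le_card_nsmul _ _ (ε / 2) fun l _ => hB b (not_lt.1 hb) l).trans ?_
            rw [nsmul_eq_mul, add_zero, mul_comm]
            exact mul_le_mul_of_nonneg_left hcard (by positivity)
        refine (abs_sum_le_sum_abs _ _).trans ((sum_le_sum b1).trans ?_)
        rw [sum_add_distrib, ← mul_sum]
        have b2 : ∑ b ∈ range N, (m b : ℝ) = t N := by
          unfold t
          push_cast
          rfl
        rw [b2]
        refine add_le_add le_rfl ?_
        rw [← sum_filter, ← mul_sum]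
        refine mul_le_mul_of_nonneg_left ?_ (by norm_num)
        have b3 : (t B : ℝ) = ∑ b ∈ range B, (m b : ℝ) := by
          unfold t
          push_cast
          rfl
        rw [b3]
        refine sum_le_sum_of_subset_of_nonneg (fun b hb => ?_) fun b _ _ => Nat.cast_nonneg _
        rw [mem_filter] at hb
        exact mem_range.2 hb.2
      have c1 := abs_add_le ((∑ b ∈ range N, (∑ l ∈ range (m b), g (t b + l) -
            ∑ l ∈ (range (m b)).filter (fun l => l + s ≤ m b), g (t b + l))) +
          (∑ b ∈ range N, ∑ l ∈ (range (m b)).filter (fun l => l + s ≤ m b),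
            (F (fun j => av (t b + l + j) (X (l + j) (ω b))) -
              ∫ w, F (fun j => av (t b + l + j) (X (l + j) w)) ∂μ)))
          (∑ b ∈ range N, ∑ l ∈ (range (m b)).filter (fun l => l + s ≤ m b),
            ((∫ w, F (fun j => av (t b + l + j) (X (l + j) w)) ∂μ) - I))
      have c2 := abs_add_le (∑ b ∈ range N, (∑ l ∈ range (m b), g (t b + l) -
            ∑ l ∈ (range (m b)).filter (fun l => l + s ≤ m b), g (t b + l)))
          (∑ b ∈ range N, ∑ l ∈ (range (m b)).filter (fun l => l + s ≤ m b),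
            (F (fun j => av (t b + l + j) (X (l + j) (ω b))) -
              ∫ w, F (fun j => av (t b + l + j) (X (l + j) w)) ∂μ))
      linarith
    -- the rest
    have hrest : |∑ k ∈ range K, g k| ≤ |∑ k ∈ range (t N), g k| + 2 * m N := by
      obtain ⟨r, rfl⟩ := Nat.exists_eq_add_of_le h1
      rw [sum_range_add]
      refine (abs_add_le _ _).trans (add_le_add le_rfl ?_)
      refine (abs_sum_le_sum_abs _ _).trans ?_
      refine (sum_le_card_nsmul _ _ 2 fun l _ => hg2 _).trans ?_
      rw [card_range, nsmul_eq_mul, mul_comm]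
      refine mul_le_mul_of_nonneg_left ?_ (by norm_num)
      rw [t_succ] at h2
      exact_mod_cast (by omega : r ≤ m N)
    have hKt : (t N : ℝ) ≤ K := by exact_mod_cast h1
    have hmN : (0 : ℝ) ≤ m N := Nat.cast_nonneg _
    have d1 : C * m N * √(N : ℝ) ≤ C * ((m N : ℝ) / √(N : ℝ)) * t N := by
      have e : C * m N * √(N : ℝ) = C * ((m N : ℝ) / √(N : ℝ)) * N := by
        have : (N : ℝ) = √(N : ℝ) * √(N : ℝ) := (Real.mul_self_sqrt hNp.le).symm
        rw [div_eq_mul_inv]
        nth_rewrite 3 [this]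
        field_simp
      rw [e]
      exact mul_le_mul_of_nonneg_left hNt (by positivity)
    have d2 : 2 * s * N = (2 * s : ℝ) * ((N : ℝ) / t N) * t N := by
      field_simp
    have d3 : 2 * (m N : ℝ) ≤ 2 * ((m N : ℝ) / √(N : ℝ)) * t N := by
      have e : (m N : ℝ) ≤ (m N : ℝ) / √(N : ℝ) * N := by
        have h9 : √(N : ℝ) ≤ N := by
          rw [Real.sqrt_le_left hNp.le]
          have : (1 : ℝ) ≤ N := by exact_mod_cast h4
          nlinarith
        rw [div_mul_eq_mul_div, le_div_iff₀ hsN]
        exact mul_le_mul_of_nonneg_left h9 hmN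
      have e2 : (m N : ℝ) / √(N : ℝ) * N ≤ (m N : ℝ) / √(N : ℝ) * t N :=
        mul_le_mul_of_nonneg_left hNt (by positivity)
      linarith
    have d4 : 2 * (t B : ℝ) ≤ (2 * t B : ℝ) * ((N : ℝ) / t N) * t N := by
      have e : (2 * t B : ℝ) * ((N : ℝ) / t N) * t N = 2 * t B * N := by field_simp
      rw [e]
      have : (1 : ℝ) ≤ N := by exact_mod_cast h4
      exact le_mul_of_one_le_right (by positivity) this
    calc |∑ k ∈ range K, g k| ≤ |∑ k ∈ range (t N), g k| + 2 * m N := hrest
      _ ≤ C * m N * √(N : ℝ) + 2 * s * N + (ε / 2 * t N + 2 * t B) + 2 * m N := by linarith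
      _ ≤ (C * ((m N : ℝ) / √(N : ℝ)) + (2 * s : ℝ) * ((N : ℝ) / t N) +
        2 * ((m N : ℝ) / √(N : ℝ)) + (2 * t B : ℝ) * ((N : ℝ) / t N)) * t N + ε / 2 * t N := by
          rw [add_mul, add_mul, add_mul]
          linarith
      _ ≤ ε / 2 * t N + ε / 2 * t N := by
          have := mul_le_mul_of_nonneg_right h3 htp.le
          linarith
      _ = ε * t N := by ring
      _ ≤ ε * K := mul_le_mul_of_nonneg_left hKt hε.le
  -- conclusion
  rw [Metric.tendsto_atTop]
  intro ε hε
  obtain ⟨K0, hK0⟩ := eventually_atTop.1 ((hmain (ε / 2) (by positivity)).and (eventually_ge_atTop 1))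
  refine ⟨K0, fun K hK => ?_⟩
  obtain ⟨h1, h2⟩ := hK0 K hK
  have hKp : (0 : ℝ) < K := by exact_mod_cast h2
  have e : (∑ k ∈ range K, F (fun j => angle a (k + j))) / K - I = (∑ k ∈ range K, g k) / K := by
    rw [hg, sum_sub_distrib, sum_const, card_range, nsmul_eq_mul]
    field_simp
  rw [Real.dist_eq, e, abs_div, abs_of_pos hKp, div_lt_iff₀ hKp]
  nlinarith

end Pool.Agent.H414.CA
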