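import Pool.Agent.H414.CA.Spec

/-! Mean and second moment: `S_MEAN`. -/

set_option autoImplicit false

namespace Pool.Agent.H414.CA

open MeasureTheory Finset Filter Topology
open Pool.Agent.H414.LT (primesUpTo U tr IsSystem)

namespace Mean

theorem trunc_abs (y : ℝ) : |(trunc y : ℝ)| ≤ |y| := by
  unfold trunc
  split_ifs with h
  · have h1 : (0 : ℝ) ≤ (⌊y⌋ : ℝ) := by exact_mod_cast Int.floor_nonneg.2 h
    rw [abs_of_nonneg h1, abs_of_nonneg h]
    exact Int.floor_le y
  · push Not at h
    have h1 : ((⌈y⌉ : ℤ) : ℝ) ≤ 0 := by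
      have : ⌈y⌉ ≤ 0 := Int.ceil_le.2 (by simpa using h.le)
      exact_mod_cast this
    rw [abs_of_nonpos h1, abs_of_neg h]
    have := Int.le_ceil y
    linarith

theorem trunc_sub (y : ℝ) : |(trunc y : ℝ) - y| ≤ 1 := by
  unfold trunc
  split_ifs with h
  · rw [abs_le]
    have h1 := Int.floor_le y
    have h2 := Int.lt_floor_add_one y
    constructor <;> linarith
  · rw [abs_le]
    have h1 := Int.le_ceil y
    have h2 := Int.ceil_lt_add_one y
    constructor <;> linarith

/-- the rounded trace -/
noncomputable def sr (r x : ℝ) : ℝ := (trunc (2 * r * Real.cos (Real.pi * x)) : ℝ) / r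

theorem sr_abs {r : ℝ} (hr : 1 ≤ r) (x : ℝ) : |sr r x| ≤ |2 * Real.cos (Real.pi * x)| := by
  have h0 : 0 < r := by linarith
  unfold sr
  rw [abs_div, abs_of_pos h0, div_le_iff₀ h0]
  refine (trunc_abs _).trans (le_of_eq ?_)
  rw [show 2 * r * Real.cos (Real.pi * x) = 2 * Real.cos (Real.pi * x) * r by ring, abs_mul,
    abs_of_pos h0]

theorem sr_sub {r : ℝ} (hr : 1 ≤ r) (x : ℝ) : |sr r x - 2 * Real.cos (Real.pi * x)| ≤ 1 / r := by
  have h0 : 0 < r := by linarith
  unfold sr
  have e : (trunc (2 * r * Real.cos (Real.pi * x)) : ℝ) / r - 2 * Real.cos (Real.pi * x) =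
      ((trunc (2 * r * Real.cos (Real.pi * x)) : ℝ) - 2 * r * Real.cos (Real.pi * x)) / r := by
    field_simp
  rw [e, abs_div, abs_of_pos h0]
  exact div_le_div_of_nonneg_right (trunc_sub _) h0.le

theorem integral_ST (g : ℝ → ℝ) : ∫ x, g x ∂ST =
    ∫ x in Set.Icc (0 : ℝ) 1, 2 * Real.sin (Real.pi * x) ^ 2 * g x := by
  unfold ST
  rw [integral_withDensity_eq_integral_toReal_smul (by fun_prop)
    (Filter.Eventually.of_forall fun x => ENNReal.ofReal_lt_top)]
  refine integral_congr_ae (Filter.Eventually.of_forall fun x => ?_)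
  simp only [smul_eq_mul]
  rw [ENNReal.toReal_ofReal (by positivity)]

theorem four_sub (x : ℝ) : 4 - (2 * Real.cos (Real.pi * x)) ^ 2 =
    4 * Real.sin (Real.pi * x) ^ 2 := by
  have := Real.sin_sq_add_cos_sq (Real.pi * x)
  nlinarith

theorem integral_cos (k : ℕ) (hk : 1 ≤ k) : ∫ x in (0 : ℝ)..1, Real.cos (k * Real.pi * x) = 0 := by
  have h0 : (k : ℝ) * Real.pi ≠ 0 := by
    have : (k : ℝ) ≠ 0 := by exact_mod_cast (by omega : k ≠ 0)
    have := Real.pi_ne_zero
    positivity
  rw [intervalIntegral.integral_comp_mul_left (fun x => Real.cos x) h0, _root_.integral_cos]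
  simp

theorem integral_f0 (n : ℕ) (hn : 1 ≤ n) : ∫ x in Set.Icc (0 : ℝ) 1,
    2 * Real.sin (Real.pi * x) * Real.sin ((n + 1) * (Real.pi * x)) = 0 := by
  rw [integral_Icc_eq_integral_Ioc, ← intervalIntegral.integral_of_le (by norm_num)]
  have e : ∀ x : ℝ, 2 * Real.sin (Real.pi * x) * Real.sin ((n + 1) * (Real.pi * x)) =
      Real.cos ((n : ℕ) * Real.pi * x) - Real.cos (((n + 2 : ℕ) : ℝ) * Real.pi * x) := by
    intro x
    have h1 : ((n : ℕ) : ℝ) * Real.pi * x = (n + 1) * (Real.pi * x) - Real.pi * x := by ring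
    have h2 : ((n + 2 : ℕ) : ℝ) * Real.pi * x = (n + 1) * (Real.pi * x) + Real.pi * x := by
      push_cast
      ring
    rw [h1, h2, Real.cos_sub, Real.cos_add]
    ring
  simp_rw [e]
  rw [intervalIntegral.integral_sub (Continuous.intervalIntegrable (by fun_prop) _ _)
    (Continuous.intervalIntegrable (by fun_prop) _ _), integral_cos n hn,
    integral_cos (n + 2) (by omega), sub_zero]

end Mean

open Mean in
theorem mean (hUS : LT.S_US) (hUB : LT.S_UB) (hUL : LT.S_UL) : S_MEAN := by
  intro n r hn hr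
  have hr0 : 0 < r := by linarith
  have hn0 : (1 : ℝ) ≤ n := by exact_mod_cast hn
  change |∫ x, U n (sr r x) ∂ST| ≤ 5 * n / r ∧ ∫ x, U n (sr r x) ^ 2 ∂ST ≤ 4
  constructor
  · rw [integral_ST]
    by_cases hint : IntegrableOn (fun x => 2 * Real.sin (Real.pi * x) ^ 2 * U n (sr r x))
        (Set.Icc (0 : ℝ) 1)
    · have hf0 : IntegrableOn (fun x : ℝ => 2 * Real.sin (Real.pi * x) *
          Real.sin ((n + 1) * (Real.pi * x))) (Set.Icc (0 : ℝ) 1) :=
        Continuous.integrableOn_Icc (by fun_prop)
      have e1 : ∫ x in Set.Icc (0 : ℝ) 1, 2 * Real.sin (Real.pi * x) ^ 2 * U n (sr r x) =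
          ∫ x in Set.Icc (0 : ℝ) 1, (2 * Real.sin (Real.pi * x) ^ 2 * U n (sr r x) -
            2 * Real.sin (Real.pi * x) * Real.sin ((n + 1) * (Real.pi * x))) := by
        rw [integral_sub hint hf0, integral_f0 n hn, sub_zero]
      rw [e1]
      have h1 := norm_setIntegral_le_of_norm_le_const (μ := volume) (s := Set.Icc (0 : ℝ) 1)
        (f := fun x => 2 * Real.sin (Real.pi * x) ^ 2 * U n (sr r x) -
            2 * Real.sin (Real.pi * x) * Real.sin ((n + 1) * (Real.pi * x)))
        (C := 9 * n / (2 * r)) (by simp) (fun x _ => ?_)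
      · rw [Real.norm_eq_abs] at h1
        refine h1.trans ?_
        have h2 : (volume : Measure ℝ).real (Set.Icc (0 : ℝ) 1) = 1 := by
          simp [Measure.real]
        rw [h2, mul_one, div_le_div_iff₀ (by positivity) hr0]
        nlinarith
      · rw [Real.norm_eq_abs]
        have hUS' := hUS n (Real.pi * x)
        have e2 : 2 * Real.sin (Real.pi * x) ^ 2 * U n (sr r x) -
            2 * Real.sin (Real.pi * x) * Real.sin ((n + 1) * (Real.pi * x)) =
            2 * Real.sin (Real.pi * x) ^ 2 *
              (U n (sr r x) - U n (2 * Real.cos (Real.pi * x))) := by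
          rw [← hUS']
          ring
        rw [e2, abs_mul, abs_of_nonneg (by positivity)]
        by_cases hs : Real.sin (Real.pi * x) = 0
        · rw [hs]
          have : 0 ≤ 9 * (n : ℝ) / (2 * r) := by positivity
          simpa using this
        · have hsq : 0 < Real.sin (Real.pi * x) ^ 2 := by positivity
          have h4 := four_sub x
          have hT : |2 * Real.cos (Real.pi * x)| < 2 := by
            refine abs_lt_of_sq_lt_sq ?_ (by norm_num)
            linarith
          have h5 := hUL n (sr r x) (2 * Real.cos (Real.pi * x))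
            ((sr_abs hr x).trans (le_max_left _ _)) hT
          rw [h4] at h5
          have h6 : |sr r x - 2 * Real.cos (Real.pi * x)| * n *
              (9 / (4 * Real.sin (Real.pi * x) ^ 2)) ≤
              1 / r * n * (9 / (4 * Real.sin (Real.pi * x) ^ 2)) :=
            mul_le_mul_of_nonneg_right (mul_le_mul_of_nonneg_right (sr_sub hr x) (by positivity))
              (by positivity)
          calc 2 * Real.sin (Real.pi * x) ^ 2 *
                |U n (sr r x) - U n (2 * Real.cos (Real.pi * x))|
              ≤ 2 * Real.sin (Real.pi * x) ^ 2 *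
                (1 / r * n * (9 / (4 * Real.sin (Real.pi * x) ^ 2))) :=
                mul_le_mul_of_nonneg_left (h5.trans h6) (by positivity)
            _ = 9 * n / (2 * r) := by
                field_simp
                ring
    · have h0 : ∫ x in Set.Icc (0 : ℝ) 1, 2 * Real.sin (Real.pi * x) ^ 2 * U n (sr r x) = 0 :=
        integral_undef hint
      rw [h0, abs_zero]
      positivity
  · rw [integral_ST]
    have h1 : ∫ x in Set.Icc (0 : ℝ) 1, 2 * Real.sin (Real.pi * x) ^ 2 * U n (sr r x) ^ 2 ≤
        ∫ x in Set.Icc (0 : ℝ) 1, (2 : ℝ) := by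
      refine integral_mono_of_nonneg (Filter.Eventually.of_forall fun x => ?_)
        (integrable_const _) (Filter.Eventually.of_forall fun x => ?_)
      · simp only [Pi.zero_apply]
        positivity
      · simp only
        have h2 := sr_abs hr x
        have hc : |2 * Real.cos (Real.pi * x)| ≤ 2 := by
          rw [abs_mul, abs_two]
          have := Real.abs_cos_le_one (Real.pi * x)
          linarith
        have h3 := hUB n (sr r x) (h2.trans hc)
        have h4 : sr r x ^ 2 ≤ (2 * Real.cos (Real.pi * x)) ^ 2 := sq_le_sq.2 h2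
        have h5 := four_sub x
        have h6 : (2 * Real.cos (Real.pi * x)) ^ 2 ≤ 4 := by
          have := sq_nonneg (Real.sin (Real.pi * x))
          linarith
        have h7 : 0 ≤ 4 - sr r x ^ 2 := by linarith
        have h8 : (|U n (sr r x)| * √(4 - sr r x ^ 2)) ^ 2 ≤ 2 ^ 2 :=
          pow_le_pow_left₀ (by positivity) h3 2
        rw [mul_pow, sq_abs, Real.sq_sqrt h7] at h8
        have h9 : U n (sr r x) ^ 2 * (4 * Real.sin (Real.pi * x) ^ 2) ≤
            U n (sr r x) ^ 2 * (4 - sr r x ^ 2) :=
          mul_le_mul_of_nonneg_left (by linarith) (sq_nonneg _)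
        nlinarith
    refine h1.trans ?_
    simp [Measure.real]
    norm_num

end Pool.Agent.H414.CA
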