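import Pool.Agent.H414.CA.Spec

/-!
Project CA (helper414), task ONE (helper225): the bounds for `c = 1` give the Sato-Tate law of the
angles.
-/

set_option autoImplicit false

namespace Pool.Agent.H414.CA

open MeasureTheory Finset Filter Topology
open Pool.Agent.H414.LT (primesUpTo U tr IsSystem blk)

namespace One

theorem U_cont : ∀ n : ℕ, Continuous (U n)
  | 0 => continuous_const
  | 1 => continuous_id
  | n + 2 => (continuous_id.mul (U_cont (n + 1))).sub (U_cont n)

/-- the trace of the angle -/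
noncomputable def T (x : ℝ) : ℝ := 2 * Real.cos (Real.pi * x)

theorem T_cont : Continuous T := by
  unfold T
  fun_prop

/-- the integral for the Sato-Tate measure -/
noncomputable def I (g : ℝ → ℝ) : ℝ := ∫ x in (0 : ℝ)..1, 2 * Real.sin (Real.pi * x) ^ 2 * g x

theorem int_ST (g : ℝ → ℝ) : ∫ x, g x ∂ST = I g := by
  unfold ST I
  rw [integral_withDensity_eq_integral_toReal_smul, integral_Icc_eq_integral_Ioc,
    intervalIntegral.integral_of_le zero_le_one]
  · apply integral_congr_ae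
    apply Filter.Eventually.of_forall
    intro x
    show (ENNReal.ofReal (2 * Real.sin (Real.pi * x) ^ 2)).toReal • g x = _
    rw [ENNReal.toReal_ofReal (by positivity), smul_eq_mul]
  · fun_prop
  · exact Filter.Eventually.of_forall fun x => ENNReal.ofReal_lt_top

theorem int_cos (m : ℕ) : ∫ x in (0 : ℝ)..1, Real.cos (((m : ℝ) + 1) * Real.pi * x) = 0 := by
  have hc : ((m : ℝ) + 1) * Real.pi ≠ 0 := by positivity
  rw [intervalIntegral.integral_comp_mul_left (fun y => Real.cos y) hc, integral_cos]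
  have e : ((m : ℝ) + 1) * Real.pi * 1 = ((m + 1 : ℕ) : ℝ) * Real.pi := by
    push_cast
    ring
  rw [e, Real.sin_nat_mul_pi, mul_zero, Real.sin_zero, sub_zero, smul_zero]

theorem I_U (hUS : Pool.Agent.H414.LT.S_US) (n : ℕ) :
    I (fun x => U n (T x)) = if n = 0 then 1 else 0 := by
  have e : ∀ x : ℝ, 2 * Real.sin (Real.pi * x) ^ 2 * U n (T x) =
      Real.cos ((n : ℝ) * Real.pi * x) - Real.cos (((n + 1 : ℕ) + 1 : ℝ) * Real.pi * x) := by
    intro x
    have h := hUS n (Real.pi * x)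
    have e1 : (n : ℝ) * Real.pi * x = ((n : ℝ) + 1) * (Real.pi * x) - Real.pi * x := by ring
    have e2 : ((n + 1 : ℕ) + 1 : ℝ) * Real.pi * x = ((n : ℝ) + 1) * (Real.pi * x) + Real.pi * x := by
      push_cast
      ring
    rw [e1, e2, Real.cos_sub, Real.cos_add, ← h]
    unfold T
    ring
  have i1 : ∀ c : ℝ, IntervalIntegrable (fun x => Real.cos (c * x)) volume 0 1 := fun c =>
    (by fun_prop : Continuous fun x : ℝ => Real.cos (c * x)).intervalIntegrable _ _
  unfold I
  rw [intervalIntegral.integral_congr (fun x _ => e x),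
    intervalIntegral.integral_sub (i1 _) (i1 _), int_cos]
  rcases n with _ | n
  · simp
  · rw [if_neg (Nat.succ_ne_zero n), sub_zero]
    have := int_cos n
    push_cast
    exact this

theorem I_add {f g : ℝ → ℝ} (hf : Continuous f) (hg : Continuous g) :
    I (fun x => f x + g x) = I f + I g := by
  unfold I
  rw [← intervalIntegral.integral_add]
  · congr 1
    funext x
    ring
  · exact (by fun_prop : Continuous fun x : ℝ => 2 * Real.sin (Real.pi * x) ^ 2 * f x).intervalIntegrable _ _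
  · exact (by fun_prop : Continuous fun x : ℝ => 2 * Real.sin (Real.pi * x) ^ 2 * g x).intervalIntegrable _ _

theorem I_mul (c : ℝ) (f : ℝ → ℝ) : I (fun x => c * f x) = c * I f := by
  unfold I
  rw [← intervalIntegral.integral_const_mul]
  congr 1
  funext x
  ring

theorem I_one (hUS : Pool.Agent.H414.LT.S_US) : I (fun _ => 1) = 1 := by
  have h := I_U hUS 0
  simpa using h

theorem I_close (hUS : Pool.Agent.H414.LT.S_US) {f g : ℝ → ℝ} (hf : Continuous f)
    (hg : Continuous g) {ε : ℝ} (h : ∀ x ∈ Set.Icc (0 : ℝ) 1, |f x - g x| ≤ ε) :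
    |I f - I g| ≤ ε := by
  have i1 : ∀ f : ℝ → ℝ, Continuous f → IntervalIntegrable
      (fun x => 2 * Real.sin (Real.pi * x) ^ 2 * f x) volume 0 1 := fun f hf =>
    (by fun_prop : Continuous fun x : ℝ => 2 * Real.sin (Real.pi * x) ^ 2 * f x).intervalIntegrable _ _
  have e1 : I f - I g = ∫ x in (0 : ℝ)..1, 2 * Real.sin (Real.pi * x) ^ 2 * (f x - g x) := by
    unfold I
    rw [← intervalIntegral.integral_sub (i1 f hf) (i1 g hg)]
    congr 1
    funext x
    ring
  have e2 : ε = ∫ x in (0 : ℝ)..1, 2 * Real.sin (Real.pi * x) ^ 2 * ε := by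
    have h1 := I_mul ε (fun _ => 1)
    rw [I_one hUS, mul_one] at h1
    unfold I at h1
    simpa using h1.symm
  rw [e1]
  refine (intervalIntegral.abs_integral_le_integral_abs zero_le_one).trans ?_
  conv_rhs => rw [e2]
  apply intervalIntegral.integral_mono_on zero_le_one
  · exact (i1 _ (hf.sub hg)).abs
  · exact i1 _ continuous_const
  · intro x hx
    rw [abs_mul, abs_of_nonneg (by positivity : (0 : ℝ) ≤ 2 * Real.sin (Real.pi * x) ^ 2)]
    exact mul_le_mul_of_nonneg_left (h x hx) (by positivity)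

/-- convergence of the means -/
def G (y : ℕ → ℝ) (g : ℝ → ℝ) : Prop :=
  Continuous g ∧ Tendsto (fun K : ℕ => (∑ k ∈ range K, g (y k)) / K) atTop (𝓝 (I g))

theorem G_add {y : ℕ → ℝ} {f g : ℝ → ℝ} (hf : G y f) (hg : G y g) : G y (fun x => f x + g x) := by
  refine ⟨hf.1.add hg.1, ?_⟩
  rw [I_add hf.1 hg.1]
  refine (hf.2.add hg.2).congr fun K => ?_
  rw [Finset.sum_add_distrib, add_div]

theorem G_mul {y : ℕ → ℝ} {f : ℝ → ℝ} (c : ℝ) (hf : G y f) : G y (fun x => c * f x) := by
  refine ⟨continuous_const.mul hf.1, ?_⟩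
  rw [I_mul]
  refine (hf.2.const_mul c).congr fun K => ?_
  rw [← Finset.mul_sum, mul_div_assoc]

theorem G_T {y : ℕ → ℝ} (hU : ∀ n, G y (fun x => U n (T x))) (m : ℕ) :
    ∀ n, G y (fun x => T x ^ m * U n (T x)) := by
  induction m with
  | zero =>
    intro n
    have h := hU n
    have e : (fun x => T x ^ 0 * U n (T x)) = fun x => U n (T x) := by
      funext x
      ring
    rw [e]
    exact h
  | succ m ih =>
    intro n
    rcases n with _ | n
    · have e : (fun x => T x ^ (m + 1) * U 0 (T x)) = fun x => T x ^ m * U 1 (T x) := by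
        funext x
        rw [Pool.Agent.H414.LT.U_zero, Pool.Agent.H414.LT.U_one]
        ring
      rw [e]
      exact ih 1
    · have e : (fun x => T x ^ (m + 1) * U (n + 1) (T x)) =
          fun x => T x ^ m * U (n + 2) (T x) + T x ^ m * U n (T x) := by
        funext x
        rw [Pool.Agent.H414.LT.U_add_two]
        ring
      rw [e]
      exact G_add (ih _) (ih _)

theorem G_poly {y : ℕ → ℝ} (hU : ∀ n, G y (fun x => U n (T x))) (p : Polynomial ℝ) :
    G y (fun x => p.eval (T x)) := by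
  induction p using Polynomial.induction_on' with
  | add p q hp hq =>
    have e : (fun x => (p + q).eval (T x)) = fun x => p.eval (T x) + q.eval (T x) := by
      funext x
      rw [Polynomial.eval_add]
    rw [e]
    exact G_add hp hq
  | monomial n c =>
    have e : (fun x => (Polynomial.monomial n c).eval (T x)) =
        fun x => c * (T x ^ n * U 0 (T x)) := by
      funext x
      rw [Polynomial.eval_monomial, Pool.Agent.H414.LT.U_zero, mul_one]
    rw [e]
    exact G_mul c (G_T hU n 0)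

theorem G_all (hUS : Pool.Agent.H414.LT.S_US) {y : ℕ → ℝ} (hy : ∀ k, y k ∈ Set.Icc (0 : ℝ) 1)
    (hU : ∀ n, G y (fun x => U n (T x))) {f : ℝ → ℝ} (hf : Continuous f) :
    Tendsto (fun K : ℕ => (∑ k ∈ range K, f (y k)) / K) atTop (𝓝 (I f)) := by
  rw [Metric.tendsto_atTop]
  intro ε hε
  have hcont : Continuous fun t : ℝ => f (Real.arccos (t / 2) / Real.pi) :=
    hf.comp ((Real.continuous_arccos.comp (continuous_id.div_const 2)).div_const _)
  obtain ⟨p, hp⟩ := exists_polynomial_near_of_continuousOn (-2) 2 _ hcont.continuousOn (ε / 4)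
    (by positivity)
  have hp' : ∀ x ∈ Set.Icc (0 : ℝ) 1, |f x - p.eval (T x)| ≤ ε / 4 := by
    intro x hx
    have h1 : T x ∈ Set.Icc (-2 : ℝ) 2 := by
      unfold T
      constructor
      · linarith [Real.neg_one_le_cos (Real.pi * x)]
      · linarith [Real.cos_le_one (Real.pi * x)]
    have h2 := hp _ h1
    have h3 : Real.arccos (T x / 2) / Real.pi = x := by
      have e : T x / 2 = Real.cos (Real.pi * x) := by
        unfold T
        ring
      rw [e, Real.arccos_cos (mul_nonneg Real.pi_pos.le hx.1)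
        (by nlinarith [Real.pi_pos, hx.2]), mul_div_cancel_left₀ _ Real.pi_ne_zero]
    rw [h3, abs_sub_comm] at h2
    exact h2.le
  obtain ⟨hpc, hpt⟩ := G_poly hU p
  have hI := I_close hUS hf hpc hp'
  obtain ⟨K0, hK0⟩ := (Metric.tendsto_atTop.1 hpt) (ε / 4) (by positivity)
  refine ⟨K0 + 1, fun K hK => ?_⟩
  have h5 := hK0 K (by omega)
  have hKpos : (0 : ℝ) < K := by
    have : 0 < K := by omega
    exact_mod_cast this
  have h6 : |(∑ k ∈ range K, f (y k)) / K - (∑ k ∈ range K, p.eval (T (y k))) / K| ≤ ε / 4 := by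
    rw [← sub_div, ← Finset.sum_sub_distrib, abs_div, abs_of_pos hKpos, div_le_iff₀ hKpos]
    refine (Finset.abs_sum_le_sum_abs _ _).trans ?_
    refine (Finset.sum_le_sum fun k _ => hp' (y k) (hy k)).trans ?_
    rw [Finset.sum_const, card_range, nsmul_eq_mul]
    linarith
  rw [Real.dist_eq] at h5 ⊢
  rw [abs_le] at hI h6
  rw [abs_lt] at h5 ⊢
  constructor <;> linarith [hI.1, hI.2, h6.1, h6.2, h5.1, h5.2]

theorem angle_mem (a : ℕ → ℤ) (k : ℕ) : angle a k ∈ Set.Icc (0 : ℝ) 1 := by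
  unfold angle
  constructor
  · exact div_nonneg (Real.arccos_nonneg _) Real.pi_pos.le
  · rw [div_le_one Real.pi_pos]
    exact Real.arccos_le_pi _

theorem T_angle {a : ℕ → ℤ} (ha : IsSystem a) (k : ℕ) :
    T (angle a k) = tr a (Nat.nth Nat.Prime k) := by
  have hp : (Nat.nth Nat.Prime k).Prime := Nat.prime_nth_prime k
  obtain ⟨p, hpe⟩ : ∃ p, Nat.nth Nat.Prime k = p := ⟨_, rfl⟩
  unfold T angle tr
  rw [hpe] at hp ⊢
  have hp0 : (0 : ℝ) < p := by exact_mod_cast hp.pos
  have hs : (0 : ℝ) < √(p : ℝ) := Real.sqrt_pos.2 hp0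
  have h1 : ((a p : ℝ)) ^ 2 < 4 * p := by exact_mod_cast ha p hp
  have h2 : |(a p : ℝ)| ≤ 2 * √(p : ℝ) := by
    apply abs_le_of_sq_le_sq _ (by positivity)
    rw [mul_pow, Real.sq_sqrt hp0.le]
    linarith
  have h3 := abs_le.1 h2
  rw [mul_div_cancel₀ _ Real.pi_ne_zero, Real.cos_arccos]
  · field_simp
  · rw [le_div_iff₀ (by positivity)]
    linarith [h3.1]
  · rw [div_le_one (by positivity)]
    exact h3.2

theorem sum_nth (K : ℕ) (f : ℕ → ℝ) :
    ∑ k ∈ range K, f (Nat.nth Nat.Prime k) = ∑ p ∈ primesUpTo (Nat.nth Nat.Prime K - 1), f p := by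
  have hinf : (Set.ofPred Nat.Prime).Infinite := Nat.infinite_setOfPred_prime
  have hpos : 0 < Nat.nth Nat.Prime K := (Nat.prime_nth_prime K).pos
  apply Finset.sum_bij (fun k _ => Nat.nth Nat.Prime k)
  · intro k hk
    unfold primesUpTo
    rw [Finset.mem_filter, Finset.mem_range]
    refine ⟨?_, Nat.prime_nth_prime k⟩
    have := Nat.nth_strictMono hinf (Finset.mem_range.1 hk)
    omega
  · intro k _ l _ h
    exact Nat.nth_injective hinf h
  · intro p hp
    unfold primesUpTo at hp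
    rw [Finset.mem_filter, Finset.mem_range] at hp
    have h1 : p ∈ Set.range (Nat.nth Nat.Prime) := by
      rw [Nat.range_nth_of_infinite hinf]
      exact hp.2
    obtain ⟨k, hk⟩ := h1
    refine ⟨k, ?_, hk⟩
    rw [Finset.mem_range]
    apply (Nat.nth_strictMono hinf).lt_iff_lt.1
    rw [hk]
    omega
  · intro k _
    rfl

/-- the logarithm of the `K`-th prime -/
noncomputable def κ (K : ℕ) : ℕ := Nat.log 2 (Nat.nth Nat.Prime K)

theorem κ_tendsto : Tendsto κ atTop atTop := by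
  rw [tendsto_atTop]
  intro b
  rw [eventually_atTop]
  refine ⟨2 ^ b, fun K hK => ?_⟩
  unfold κ
  apply Nat.le_log_of_pow_le (by norm_num)
  exact hK.trans ((Nat.nth_strictMono Nat.infinite_setOfPred_prime).id_le K)

theorem card_blk (K : ℕ) (hK : 1 ≤ κ K) : (blk (κ K - 1)).card ≤ K + 1 := by
  have hpos : Nat.nth Nat.Prime K ≠ 0 := (Nat.prime_nth_prime K).pos.ne'
  have hinf : (Set.ofPred Nat.Prime).Infinite := Nat.infinite_setOfPred_prime
  have h1 : blk (κ K - 1) ⊆ (range (K + 1)).image (Nat.nth Nat.Prime) := by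
    intro p hp
    unfold blk at hp
    rw [Finset.mem_filter, Finset.mem_Ioc, Nat.sub_add_cancel hK] at hp
    have h2 : p ≤ Nat.nth Nat.Prime K := hp.1.2.trans (Nat.pow_log_le_self 2 hpos)
    have h3 : p ∈ Set.range (Nat.nth Nat.Prime) := by
      rw [Nat.range_nth_of_infinite hinf]
      exact hp.2
    obtain ⟨k, rfl⟩ := h3
    refine Finset.mem_image_of_mem _ (Finset.mem_range.2 ?_)
    have := (Nat.nth_strictMono hinf).le_iff_le.1 h2
    omega
  exact (Finset.card_le_card h1).trans (Finset.card_image_le.trans (by rw [card_range]))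

theorem U_mean (hCHE : Pool.Agent.H414.LT.S_CHE) {a : ℕ → ℤ} (ha : IsSystem a)
    (hR : IsRH (fun _ _ => 1) a) (n : ℕ) (hn : 1 ≤ n) :
    Tendsto (fun K : ℕ => (∑ k ∈ range K, U n (T (angle a k))) / K) atTop (𝓝 0) := by
  obtain ⟨c, hc, hche⟩ := hCHE
  obtain ⟨C, hC⟩ := hR 0 (1 / 4) (by norm_num)
  obtain ⟨s, hs⟩ : ∃ s : ℝ, (2 : ℝ) ^ (3 / 4 : ℝ) = s := ⟨_, rfl⟩
  have hs0 : 0 < s := by
    rw [← hs]
    positivity
  have hs2 : s < 2 := by
    rw [← hs]
    calc (2 : ℝ) ^ (3 / 4 : ℝ) < 2 ^ (1 : ℝ) := Real.rpow_lt_rpow_of_exponent_lt (by norm_num) (by norm_num)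
      _ = 2 := Real.rpow_one 2
  -- the bound for the sum
  have hS : ∀ K, |∑ k ∈ range K, U n (T (angle a k))| ≤ |C| * ((n : ℝ) + 1) * s ^ (κ K + 1) := by
    intro K
    have e1 : ∑ k ∈ range K, U n (T (angle a k)) =
        ∑ p ∈ primesUpTo (Nat.nth Nat.Prime K - 1), U n (tr a p) := by
      rw [← sum_nth K (fun p => U n (tr a p))]
      exact Finset.sum_congr rfl fun k _ => by rw [T_angle ha]
    have h1 := hC n (Nat.nth Nat.Prime K - 1) hn
    have e2 : ‖∑ p ∈ primesUpTo (Nat.nth Nat.Prime K - 1), (1 : ℂ) * (U n (tr a p) : ℝ)‖ =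
        |∑ p ∈ primesUpTo (Nat.nth Nat.Prime K - 1), U n (tr a p)| := by
      have e3 : ∑ p ∈ primesUpTo (Nat.nth Nat.Prime K - 1), (1 : ℂ) * (U n (tr a p) : ℝ) =
          ((∑ p ∈ primesUpTo (Nat.nth Nat.Prime K - 1), U n (tr a p) : ℝ) : ℂ) := by
        push_cast
        exact Finset.sum_congr rfl fun p _ => one_mul _
      rw [e3, Complex.norm_real, Real.norm_eq_abs]
    rw [e1, ← e2]
    refine h1.trans ?_
    have hN : 1 ≤ Nat.nth Nat.Prime K := (Nat.prime_nth_prime K).one_le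
    have e4 : (((Nat.nth Nat.Prime K - 1 : ℕ) : ℝ) + 1) = (Nat.nth Nat.Prime K : ℝ) := by
      rw [Nat.cast_sub hN]
      push_cast
      ring
    rw [e4]
    have h2 : (Nat.nth Nat.Prime K : ℝ) ≤ 2 ^ (κ K + 1) := by
      have := Nat.lt_pow_succ_log_self (b := 2) (by norm_num) (Nat.nth Nat.Prime K)
      exact_mod_cast this.le
    have h3 : (Nat.nth Nat.Prime K : ℝ) ^ (1 / 2 + 1 / 4 : ℝ) ≤ s ^ (κ K + 1) := by
      have e5 : (1 / 2 + 1 / 4 : ℝ) = 3 / 4 := by norm_num
      rw [e5]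
      refine (Real.rpow_le_rpow (Nat.cast_nonneg _) h2 (by norm_num)).trans ?_
      rw [← hs, ← Real.rpow_natCast, ← Real.rpow_natCast, ← Real.rpow_mul (by norm_num),
        ← Real.rpow_mul (by norm_num), mul_comm]
    have h4 : C * ((n : ℝ) + 1) ≤ |C| * ((n : ℝ) + 1) :=
      mul_le_mul_of_nonneg_right (le_abs_self C) (by positivity)
    calc C * ((n : ℝ) + 1) * (Nat.nth Nat.Prime K : ℝ) ^ (1 / 2 + 1 / 4 : ℝ)
        ≤ |C| * ((n : ℝ) + 1) * (Nat.nth Nat.Prime K : ℝ) ^ (1 / 2 + 1 / 4 : ℝ) :=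
          mul_le_mul_of_nonneg_right h4 (by positivity)
      _ ≤ |C| * ((n : ℝ) + 1) * s ^ (κ K + 1) := mul_le_mul_of_nonneg_left h3 (by positivity)
  -- the lower bound for the number of the primes
  have hK : ∀ K, 1 ≤ κ K → c * 2 ^ (κ K) ≤ 2 * (κ K : ℝ) * ((K : ℝ) + 1) := by
    intro K h1
    have h2 := (hche (κ K - 1)).trans (Nat.cast_le.2 (card_blk K h1) : ((blk (κ K - 1)).card : ℝ) ≤ _)
    obtain ⟨l, hl⟩ : ∃ l, κ K = l + 1 := ⟨κ K - 1, by omega⟩
    rw [hl] at h2 ⊢
    rw [Nat.add_sub_cancel, div_le_iff₀ (by positivity)] at h2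
    push_cast at h2 ⊢
    rw [pow_succ]
    linarith
  -- the limit
  have hlim : Tendsto (fun K : ℕ => (|C| * ((n : ℝ) + 1) * s * 4 / c) *
      ((κ K : ℝ) ^ 1 * (s / 2) ^ (κ K))) atTop (𝓝 0) := by
    have h1 := (tendsto_pow_const_mul_const_pow_of_abs_lt_one 1 (r := s / 2) (by
      rw [abs_of_pos (by positivity)]
      linarith)).comp κ_tendsto
    have h2 := h1.const_mul (|C| * ((n : ℝ) + 1) * s * 4 / c)
    rw [mul_zero] at h2
    exact h2
  apply squeeze_zero_norm' _ hlim
  filter_upwards [κ_tendsto.eventually_ge_atTop 1, eventually_ge_atTop 1] with K h1 h2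
  have hK1 : (1 : ℝ) ≤ K := by exact_mod_cast h2
  have h3 := hS K
  have h4 := hK K h1
  rw [Real.norm_eq_abs, abs_div, abs_of_pos (by linarith : (0 : ℝ) < K), div_le_iff₀ (by linarith)]
  refine h3.trans ?_
  have hκ : (0 : ℝ) < κ K := by exact_mod_cast h1
  have h5 : (1 : ℝ) ≤ 4 / c * ((κ K : ℝ) ^ 1 * (1 / 2) ^ (κ K)) * K := by
    have h6 : (0 : ℝ) < (2 : ℝ) ^ (κ K) := by positivity
    have e6 : 4 / c * ((κ K : ℝ) ^ 1 * (1 / 2) ^ (κ K)) * K = 4 * κ K * K / (c * 2 ^ (κ K)) := by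
      rw [one_div, inv_pow]
      field_simp
    rw [e6, one_le_div (by positivity)]
    nlinarith
  have e7 : |C| * ((n : ℝ) + 1) * s * 4 / c * ((κ K : ℝ) ^ 1 * (s / 2) ^ (κ K)) * K =
      |C| * ((n : ℝ) + 1) * s ^ (κ K + 1) * (4 / c * ((κ K : ℝ) ^ 1 * (1 / 2) ^ (κ K)) * K) := by
    rw [show s / 2 = s * (1 / 2) by ring, mul_pow, pow_succ]
    ring
  rw [e7]
  exact le_mul_of_one_le_right (by positivity) h5

end One

open Pool.Agent.H414.CA.One in
theorem one (hCHE : Pool.Agent.H414.LT.S_CHE) (hUS : Pool.Agent.H414.LT.S_US) : S_ONE := by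
  intro a ha hR f hf
  rw [int_ST]
  apply G_all hUS (angle_mem a) _ hf
  intro n
  refine ⟨(U_cont n).comp T_cont, ?_⟩
  rw [I_U hUS]
  rcases n with _ | n
  · rw [if_pos rfl]
    apply tendsto_const_nhds.congr'
    filter_upwards [eventually_ge_atTop 1] with K hK
    have hK1 : (K : ℝ) ≠ 0 := by
      have : K ≠ 0 := by omega
      exact_mod_cast this
    simp only [Pool.Agent.H414.LT.U_zero]
    rw [Finset.sum_const, card_range, nsmul_eq_mul, mul_one, div_self hK1]
  · rw [if_neg (Nat.succ_ne_zero n)]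
    exact U_mean hCHE ha hR (n + 1) (by omega)

end Pool.Agent.H414.CA
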