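import Pool.Agent.H414.CA.Spec

/-!
The bounds which the Riemann hypothesis gives, for the selected integers.
-/

set_option autoImplicit false

namespace Pool.Agent.H414.CA

open MeasureTheory Finset Filter Topology
open Pool.Agent.H414.LT (primesUpTo U tr IsSystem)

namespace Rh

theorem m_pos (n : ℕ) : 1 ≤ m n := by
  unfold m
  exact Nat.log_pos (by norm_num) (by omega)

theorem t_succ (n : ℕ) : t (n + 1) = t n + m n := by
  unfold t
  rw [sum_range_succ]

theorem exists_bl (k : ℕ) : ∃ b l, l < m b ∧ k = t b + l := by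
  induction k with
  | zero => exact ⟨0, 0, m_pos 0, by simp [t]⟩
  | succ k ih =>
    obtain ⟨b, l, hl, hk⟩ := ih
    by_cases h : l + 1 < m b
    · exact ⟨b, l + 1, h, by omega⟩
    · refine ⟨b + 1, 0, m_pos _, ?_⟩
      rw [t_succ]
      omega

theorem le_t (n : ℕ) : n ≤ t n := by
  induction n with
  | zero => exact Nat.zero_le _
  | succ n ih =>
    rw [t_succ]
    have := m_pos n
    omega

theorem sum_t {M : Type} [AddCommMonoid M] (f : ℕ → M) (N : ℕ) :
    ∑ k ∈ range (t N), f k = ∑ b ∈ range N, ∑ l ∈ range (m b), f (t b + l) := by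
  induction N with
  | zero => simp [t]
  | succ N ih => rw [t_succ, sum_range_add, ih, sum_range_succ]

theorem sum_primes {M : Type} [AddCommMonoid M] (f : ℕ → M) (y : ℕ) :
    ∑ p ∈ (range y).filter Nat.Prime, f p = ∑ k ∈ range (Nat.count Nat.Prime y), f (pr k) := by
  induction y with
  | zero => simp
  | succ y ih =>
    rw [range_add_one, filter_insert, Nat.count_succ]
    by_cases h : y.Prime
    · rw [if_pos h, if_pos h, sum_insert (by simp), ih, sum_range_succ, add_comm]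
      unfold pr
      rw [Nat.nth_count h]
    · rw [if_neg h, if_neg h, ih, add_zero]

theorem pr_prime (k : ℕ) : (pr k).Prime := Nat.prime_nth_prime k

theorem one_le_sqrt_pr (k : ℕ) : 1 ≤ √(pr k : ℝ) := by
  rw [Real.one_le_sqrt]
  exact_mod_cast (pr_prime k).one_lt.le

/-! ### Rounding -/

theorem abs_trunc_le (y : ℝ) : |(trunc y : ℝ)| ≤ |y| := by
  unfold trunc
  split_ifs with h
  · rw [abs_of_nonneg h, abs_of_nonneg (by exact_mod_cast Int.floor_nonneg.2 h)]
    exact Int.floor_le y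
  · have h0 : y < 0 := not_le.1 h
    have h1 : (⌈y⌉ : ℝ) ≤ 0 := by
      have : ⌈y⌉ ≤ 0 := Int.ceil_le.2 (by exact_mod_cast h0.le)
      exact_mod_cast this
    rw [abs_of_neg h0, abs_of_nonpos h1]
    linarith [Int.le_ceil y]

theorem not_sq {p : ℕ} (hp : p.Prime) {b : ℤ} (h : b ^ 2 ≤ 4 * p) : b ^ 2 < 4 * p := by
  refine lt_of_le_of_ne h fun h1 => ?_
  have h2 : (2 : ℤ) ∣ b := by
    have : (2 : ℤ) ∣ b ^ 2 := ⟨2 * p, by rw [h1]; ring⟩
    exact Int.Prime.dvd_pow' Nat.prime_two this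
  obtain ⟨d, rfl⟩ := h2
  have h3 : d ^ 2 = p := by nlinarith
  have h4 : p = d.natAbs * d.natAbs := by
    zify
    rw [← h3, abs_mul_abs_self]
    ring
  exact (Nat.not_prime_of_mul_eq h4.symm (fun h => by rw [h] at h4; exact hp.ne_one (by omega))
    (fun h => by rw [h] at h4; exact hp.ne_one (by omega))) hp

theorem bv_sq (k : ℕ) (x : ℝ) : bv k x ^ 2 < 4 * (pr k : ℤ) := by
  refine not_sq (pr_prime k) ?_
  have h1 : |(bv k x : ℝ)| ≤ 2 * √(pr k : ℝ) := by
    refine (abs_trunc_le _).trans ?_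
    rw [abs_mul, abs_of_nonneg (by positivity)]
    exact mul_le_of_le_one_right (by positivity) (Real.abs_cos_le_one _)
  have h2 : (bv k x : ℝ) ^ 2 ≤ (2 * √(pr k : ℝ)) ^ 2 := sq_le_sq.2 (by
    rw [abs_of_nonneg (by positivity : 0 ≤ 2 * √(pr k : ℝ))]
    exact h1)
  rw [mul_pow, Real.sq_sqrt (Nat.cast_nonneg _)] at h2
  have h3 : ((bv k x ^ 2 : ℤ) : ℝ) ≤ ((4 * (pr k : ℤ) : ℤ) : ℝ) := by
    push_cast
    linarith
  exact_mod_cast h3

theorem trunc_meas : Measurable (fun y : ℝ => (trunc y : ℝ)) := by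
  have h1 : Measurable (fun y : ℝ => trunc y) := by
    unfold trunc
    exact Measurable.ite measurableSet_Ici Int.measurable_floor Int.measurable_ceil
  exact (measurable_of_countable (fun z : ℤ => (z : ℝ))).comp h1

/-! ### The polynomials `U` -/

theorem cont_U (n : ℕ) : Continuous (U n) ∧ Continuous (U (n + 1)) := by
  induction n with
  | zero => exact ⟨continuous_const, continuous_id⟩
  | succ n ih =>
    refine ⟨ih.2, ?_⟩
    have : U (n + 1 + 1) = fun t => t * U (n + 1) t - U n t := by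
      funext t
      rfl
    rw [this]
    exact (continuous_id.mul ih.2).sub ih.1

theorem us (n : ℕ) (θ : ℝ) : U n (2 * Real.cos θ) * Real.sin θ = Real.sin (((n : ℝ) + 1) * θ) ∧
    U (n + 1) (2 * Real.cos θ) * Real.sin θ = Real.sin (((n : ℝ) + 2) * θ) := by
  induction n with
  | zero =>
    refine ⟨?_, ?_⟩
    · rw [Pool.Agent.H414.LT.U_zero]
      simp
    · rw [zero_add, Pool.Agent.H414.LT.U_one]
      have : ((0 : ℕ) : ℝ) + 2 = 2 := by norm_num
      rw [this, Real.sin_two_mul]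
      ring
  | succ n ih =>
    refine ⟨?_, ?_⟩
    · rw [ih.2]
      push_cast
      ring_nf
    · rw [show n + 1 + 1 = n + 2 from rfl, Pool.Agent.H414.LT.U_add_two, sub_mul, ih.1, mul_assoc,
        ih.2]
      push_cast
      have h1 : ((n : ℝ) + 1 + 2) * θ = ((n : ℝ) + 2) * θ + θ := by ring
      have h2 : ((n : ℝ) + 1) * θ = ((n : ℝ) + 2) * θ - θ := by ring
      rw [h1, h2, Real.sin_add, Real.sin_sub]
      ring

theorem abs_sin_le (n : ℕ) (θ : ℝ) : |Real.sin ((n : ℝ) * θ)| ≤ n * |Real.sin θ| := by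
  induction n with
  | zero => simp
  | succ n ih =>
    push_cast
    rw [add_mul, one_mul, Real.sin_add]
    refine (abs_add_le _ _).trans ?_
    rw [abs_mul, abs_mul]
    have h1 := Real.abs_cos_le_one θ
    have h2 := Real.abs_cos_le_one ((n : ℝ) * θ)
    have h3 := abs_nonneg (Real.sin ((n : ℝ) * θ))
    have h4 := abs_nonneg (Real.sin θ)
    nlinarith

theorem abs_U_le (n : ℕ) {s : ℝ} (hs : |s| < 2) : |U n s| ≤ (n : ℝ) + 1 := by
  rw [abs_lt] at hs
  have h1 : Real.cos (Real.arccos (s / 2)) = s / 2 :=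
    Real.cos_arccos (by linarith) (by linarith)
  have h2 : s = 2 * Real.cos (Real.arccos (s / 2)) := by rw [h1]; ring
  have h3 : 0 < Real.sin (Real.arccos (s / 2)) := by
    rw [Real.sin_arccos]
    exact Real.sqrt_pos.2 (by nlinarith)
  generalize Real.arccos (s / 2) = θ at h1 h2 h3
  have h4 := (us n θ).1
  rw [← h2] at h4
  have h5 := abs_sin_le (n + 1) θ
  push_cast at h5
  rw [← h4, abs_mul, abs_of_pos h3] at h5
  exact le_of_mul_le_mul_right h5 h3

/-! ### Means -/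

theorem mean_eq {Ω : Type} [MeasurableSpace Ω] {μ : Measure Ω} {X : ℕ → Ω → ℝ} (hX : IsProc μ X)
    (n k l : ℕ) : ∫ w, U n ((bv k (X l w) : ℝ) / √(pr k : ℝ)) ∂μ =
      ∫ x, U n ((trunc (2 * √(pr k : ℝ) * Real.cos (Real.pi * x)) : ℝ) / √(pr k : ℝ)) ∂ST := by
  rw [← hX.law l, integral_map (hX.meas l).aemeasurable]
  · rfl
  · refine Measurable.aestronglyMeasurable ?_
    refine (cont_U n).1.measurable.comp ?_
    refine Measurable.div_const ?_ _
    refine trunc_meas.comp ?_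
    fun_prop

theorem mean_le (hMEAN : S_MEAN) {Ω : Type} [MeasurableSpace Ω] {μ : Measure Ω} {X : ℕ → Ω → ℝ}
    (hX : IsProc μ X) (n k l : ℕ) (hn : 1 ≤ n) :
    |∫ w, U n ((bv k (X l w) : ℝ) / √(pr k : ℝ)) ∂μ| ≤ 5 * n / √(pr k : ℝ) := by
  rw [mean_eq hX]
  exact (hMEAN n _ hn (one_le_sqrt_pr k)).1

/-! ### Elementary bounds -/

theorem sum_inv_sqrt (x : ℕ) : ∑ j ∈ range (x + 1), 1 / √(j : ℝ) ≤ 2 * √(x : ℝ) := by
  induction x with
  | zero => simp
  | succ x ih =>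
    rw [sum_range_succ]
    have h1 : (0 : ℝ) < √((x + 1 : ℕ) : ℝ) := Real.sqrt_pos.2 (by positivity)
    have h2 : (0 : ℝ) ≤ √(x : ℝ) := Real.sqrt_nonneg _
    have h3 : √((x + 1 : ℕ) : ℝ) ^ 2 = x + 1 := by
      rw [Real.sq_sqrt (Nat.cast_nonneg _)]
      push_cast
      ring
    have h4 : √(x : ℝ) ^ 2 = x := Real.sq_sqrt (Nat.cast_nonneg _)
    have h5 : √(x : ℝ) ≤ √((x + 1 : ℕ) : ℝ) := Real.sqrt_le_sqrt (by push_cast; linarith)
    have h6 : 1 / √((x + 1 : ℕ) : ℝ) ≤ 2 * (√((x + 1 : ℕ) : ℝ) - √(x : ℝ)) := by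
      rw [div_le_iff₀ h1]
      nlinarith
    linarith

theorem m_le {ε : ℝ} (hε : 0 < ε) : ∃ D : ℝ, 0 ≤ D ∧ ∀ N x : ℕ, N ≤ x + 1 →
    (m N : ℝ) ≤ D * ((x : ℝ) + 1) ^ ε := by
  have hl : 0 < Real.log 2 := Real.log_pos (by norm_num)
  refine ⟨3 ^ ε / ε / Real.log 2, by positivity, fun N x hN => ?_⟩
  have h1 : (m N : ℝ) ≤ Real.logb 2 ((N : ℝ) + 2) := by
    have := Real.natLog_le_logb (N + 2) 2
    push_cast at this
    exact this
  have h2 : Real.log ((N : ℝ) + 2) ≤ ((N : ℝ) + 2) ^ ε / ε :=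
    Real.log_le_rpow_div (by positivity) hε
  have h3 : (N : ℝ) + 2 ≤ 3 * ((x : ℝ) + 1) := by
    have : (N : ℝ) ≤ (x : ℝ) + 1 := by exact_mod_cast hN
    have h0 : (0 : ℝ) ≤ x := Nat.cast_nonneg _
    linarith
  have h4 : ((N : ℝ) + 2) ^ ε ≤ 3 ^ ε * ((x : ℝ) + 1) ^ ε := by
    rw [← Real.mul_rpow (by norm_num) (by positivity)]
    exact Real.rpow_le_rpow (by positivity) h3 hε.le
  refine h1.trans ?_
  unfold Real.logb
  calc Real.log ((N : ℝ) + 2) / Real.log 2 ≤ (3 ^ ε * ((x : ℝ) + 1) ^ ε / ε) / Real.log 2 := by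
        refine div_le_div_of_nonneg_right (h2.trans ?_) hl.le
        exact div_le_div_of_nonneg_right h4 hε.le
    _ = 3 ^ ε / ε / Real.log 2 * ((x : ℝ) + 1) ^ ε := by ring

end Rh

open Rh in
theorem rh (hMEAN : S_MEAN) : S_RH := by
  intro Ω _ μ X hX c hc ω a ha hsel
  have hsq : ∀ k, a (pr k) ^ 2 < 4 * (pr k : ℤ) := by
    intro k
    obtain ⟨b, l, hl, rfl⟩ := exists_bl k
    rw [ha b l hl]
    exact bv_sq _ _
  have htr : ∀ k, |tr a (pr k)| < 2 := by
    intro k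
    have h1 : 0 < √(pr k : ℝ) := lt_of_lt_of_le one_pos (one_le_sqrt_pr k)
    unfold tr
    rw [abs_div, abs_of_pos h1, div_lt_iff₀ h1]
    refine abs_lt_of_sq_lt_sq ?_ (by positivity)
    rw [mul_pow, Real.sq_sqrt (Nat.cast_nonneg _)]
    have h2 : ((a (pr k) ^ 2 : ℤ) : ℝ) < ((4 * (pr k : ℤ) : ℤ) : ℝ) := by exact_mod_cast hsq k
    push_cast at h2
    linarith
  refine ⟨?_, ?_⟩
  · intro p hp
    have h1 : pr (Nat.count Nat.Prime p) = p := Nat.nth_count hp
    have h2 := hsq (Nat.count Nat.Prime p)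
    rw [h1] at h2
    exact h2
  · intro i ε hε
    obtain ⟨C, hC⟩ := hsel i
    obtain ⟨D, hD0, hD⟩ := m_le hε
    refine ⟨(|C| + 1) * D + 10, fun n x hn => ?_⟩
    have hK := sum_primes (fun p => c i p * (U n (tr a p) : ℂ)) (x + 1)
    have hK' := sum_primes (fun p => 5 * (n : ℝ) / √(p : ℝ)) (x + 1)
    have hKx : Nat.count Nat.Prime (x + 1) ≤ x + 1 := Nat.count_le _
    obtain ⟨N, l, hl, hKN⟩ := exists_bl (Nat.count Nat.Prime (x + 1))
    have hNx : N ≤ x + 1 := by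
      have := le_t N
      omega
    have hn1 : (0 : ℝ) ≤ (n : ℝ) + 1 := by positivity
    have hx1 : (1 : ℝ) ≤ (x : ℝ) + 1 := by
      have : (0 : ℝ) ≤ x := Nat.cast_nonneg _
      linarith
    -- the last incomplete block
    have hlast : ‖∑ j ∈ range l, c i (pr (t N + j)) * (U n (tr a (pr (t N + j))) : ℂ)‖ ≤
        m N * ((n : ℝ) + 1) := by
      refine (norm_sum_le _ _).trans ?_
      calc ∑ j ∈ range l, ‖c i (pr (t N + j)) * (U n (tr a (pr (t N + j))) : ℂ)‖
          ≤ ∑ _j ∈ range l, ((n : ℝ) + 1) := by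
            refine sum_le_sum fun j _ => ?_
            rw [norm_mul, Complex.norm_real, Real.norm_eq_abs]
            calc ‖c i (pr (t N + j))‖ * |U n (tr a (pr (t N + j)))|
                ≤ 1 * |U n (tr a (pr (t N + j)))| :=
                  mul_le_mul_of_nonneg_right (hc _ _) (abs_nonneg _)
              _ ≤ (n : ℝ) + 1 := by
                  rw [one_mul]
                  exact abs_U_le n (htr _)
        _ = l * ((n : ℝ) + 1) := by rw [sum_const, card_range, nsmul_eq_mul]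
        _ ≤ m N * ((n : ℝ) + 1) := by
            refine mul_le_mul_of_nonneg_right ?_ hn1
            exact_mod_cast hl.le
    -- the means
    have hmean : ‖∑ b ∈ range N, ∑ l ∈ range (m b), c i (pr (t b + l)) *
        ((∫ w, U n ((bv (t b + l) (X l w) : ℝ) / √(pr (t b + l) : ℝ)) ∂μ : ℝ) : ℂ)‖ ≤
        10 * (n : ℝ) * √(x : ℝ) := by
      calc ‖∑ b ∈ range N, ∑ l ∈ range (m b), c i (pr (t b + l)) *
            ((∫ w, U n ((bv (t b + l) (X l w) : ℝ) / √(pr (t b + l) : ℝ)) ∂μ : ℝ) : ℂ)‖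
          ≤ ∑ b ∈ range N, ∑ l ∈ range (m b), 5 * (n : ℝ) / √(pr (t b + l) : ℝ) := by
            refine (norm_sum_le _ _).trans (sum_le_sum fun b _ => ?_)
            refine (norm_sum_le _ _).trans (sum_le_sum fun l _ => ?_)
            rw [norm_mul, Complex.norm_real, Real.norm_eq_abs]
            refine le_trans (mul_le_mul_of_nonneg_right (hc _ _) (abs_nonneg _)) ?_
            rw [one_mul]
            exact mean_le hMEAN hX n _ l hn
        _ = ∑ k ∈ range (t N), 5 * (n : ℝ) / √(pr k : ℝ) :=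
            (sum_t (fun k => 5 * (n : ℝ) / √(pr k : ℝ)) N).symm
        _ ≤ ∑ k ∈ range (Nat.count Nat.Prime (x + 1)), 5 * (n : ℝ) / √(pr k : ℝ) := by
            refine sum_le_sum_of_subset_of_nonneg ?_ (fun _ _ _ => by positivity)
            intro k hk
            rw [mem_range] at hk ⊢
            omega
        _ = ∑ p ∈ (range (x + 1)).filter Nat.Prime, 5 * (n : ℝ) / √(p : ℝ) := hK'.symm
        _ ≤ ∑ p ∈ range (x + 1), 5 * (n : ℝ) / √(p : ℝ) :=
            sum_le_sum_of_subset_of_nonneg (filter_subset _ _) (fun _ _ _ => by positivity)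
        _ = 5 * (n : ℝ) * ∑ p ∈ range (x + 1), 1 / √(p : ℝ) := by
            rw [mul_sum]
            refine sum_congr rfl fun p _ => ?_
            ring
        _ ≤ 5 * (n : ℝ) * (2 * √(x : ℝ)) :=
            mul_le_mul_of_nonneg_left (sum_inv_sqrt x) (by positivity)
        _ = 10 * (n : ℝ) * √(x : ℝ) := by ring
    have hmain := hC n N hn
    -- the decomposition
    have hdec : ∑ p ∈ primesUpTo x, c i p * (U n (tr a p) : ℂ) =
        (∑ b ∈ range N, ∑ l ∈ range (m b), c i (pr (t b + l)) *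
        (((U n ((bv (t b + l) (X l (ω b)) : ℝ) / √(pr (t b + l) : ℝ)) -
          ∫ w, U n ((bv (t b + l) (X l w) : ℝ) / √(pr (t b + l) : ℝ)) ∂μ : ℝ)) : ℂ)) +
        (∑ b ∈ range N, ∑ l ∈ range (m b), c i (pr (t b + l)) *
        ((∫ w, U n ((bv (t b + l) (X l w) : ℝ) / √(pr (t b + l) : ℝ)) ∂μ : ℝ) : ℂ)) +
        ∑ j ∈ range l, c i (pr (t N + j)) * (U n (tr a (pr (t N + j))) : ℂ) := by
      unfold primesUpTo
      rw [hK, hKN, sum_range_add, sum_t, ← sum_add_distrib]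
      congr 1
      refine sum_congr rfl fun b _ => ?_
      rw [← sum_add_distrib]
      refine sum_congr rfl fun l hl => ?_
      rw [← mul_add, ← Complex.ofReal_add, sub_add_cancel]
      unfold tr
      rw [ha b l (mem_range.1 hl)]
    rw [hdec]
    have h1 : (1 : ℝ) ≤ ((x : ℝ) + 1) ^ ε := Real.one_le_rpow hx1 hε.le
    have h2 : ((x : ℝ) + 1) ^ (1 / 2 + ε) = √((x : ℝ) + 1) * ((x : ℝ) + 1) ^ ε := by
      rw [Real.rpow_add (by linarith), Real.sqrt_eq_rpow]
    have h3 : 1 ≤ √((x : ℝ) + 1) := Real.one_le_sqrt.2 hx1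
    have h4 : √(x : ℝ) ≤ √((x : ℝ) + 1) := Real.sqrt_le_sqrt (by linarith)
    have h5 : √(N : ℝ) ≤ √((x : ℝ) + 1) := Real.sqrt_le_sqrt (by exact_mod_cast hNx)
    have h6 := hD N x hNx
    have hm0 : (0 : ℝ) ≤ m N := Nat.cast_nonneg _
    have h7 : C * ((n : ℝ) + 1) * m N * √(N : ℝ) ≤
        |C| * D * (((n : ℝ) + 1) * (√((x : ℝ) + 1) * ((x : ℝ) + 1) ^ ε)) := by
      calc C * ((n : ℝ) + 1) * m N * √(N : ℝ)
          = C * (((n : ℝ) + 1) * m N * √(N : ℝ)) := by ring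
        _ ≤ |C| * (((n : ℝ) + 1) * m N * √(N : ℝ)) :=
            mul_le_mul_of_nonneg_right (le_abs_self _) (by positivity)
        _ ≤ |C| * (((n : ℝ) + 1) * (D * ((x : ℝ) + 1) ^ ε) * √((x : ℝ) + 1)) := by
            gcongr
        _ = _ := by ring
    have h8 : 10 * (n : ℝ) * √(x : ℝ) ≤
        10 * (((n : ℝ) + 1) * (√((x : ℝ) + 1) * ((x : ℝ) + 1) ^ ε)) := by
      calc 10 * (n : ℝ) * √(x : ℝ) = 10 * (n * (√(x : ℝ) * 1)) := by ring
        _ ≤ 10 * (((n : ℝ) + 1) * (√((x : ℝ) + 1) * ((x : ℝ) + 1) ^ ε)) := by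
            gcongr
            linarith
    have h9 : m N * ((n : ℝ) + 1) ≤ D * (((n : ℝ) + 1) * (√((x : ℝ) + 1) * ((x : ℝ) + 1) ^ ε)) := by
      calc m N * ((n : ℝ) + 1) ≤ (D * ((x : ℝ) + 1) ^ ε) * ((n : ℝ) + 1) :=
            mul_le_mul_of_nonneg_right h6 hn1
        _ = D * (((n : ℝ) + 1) * (1 * ((x : ℝ) + 1) ^ ε)) := by ring
        _ ≤ D * (((n : ℝ) + 1) * (√((x : ℝ) + 1) * ((x : ℝ) + 1) ^ ε)) := by
            gcongr
    rw [h2]
    refine (norm_add₃_le).trans ?_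
    calc _ ≤ |C| * D * (((n : ℝ) + 1) * (√((x : ℝ) + 1) * ((x : ℝ) + 1) ^ ε)) +
          10 * (((n : ℝ) + 1) * (√((x : ℝ) + 1) * ((x : ℝ) + 1) ^ ε)) +
          D * (((n : ℝ) + 1) * (√((x : ℝ) + 1) * ((x : ℝ) + 1) ^ ε)) :=
        add_le_add (add_le_add (hmain.trans h7) (hmean.trans h8)) (hlast.trans h9)
      _ = _ := by ring

end Pool.Agent.H414.CA
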