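import Pool.Agent.H414.CA.Spec
import Pool.Agent.H414.LT.St1

/-! The selection (helper181). -/

set_option autoImplicit false

namespace Pool.Agent.H414.CA

open MeasureTheory Finset Filter Topology
open Pool.Agent.H414.LT (primesUpTo U tr IsSystem)

namespace Sel

theorem U_cont : ∀ n : ℕ, Continuous (U n)
  | 0 => by
    have : U 0 = fun _ => (1 : ℝ) := rfl
    rw [this]
    exact continuous_const
  | 1 => by
    have : U 1 = fun x => (x : ℝ) := rfl
    rw [this]
    exact continuous_id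
  | n + 2 => by
    have : U (n + 2) = fun x : ℝ => x * U (n + 1) x - U n x := rfl
    rw [this]
    exact (continuous_id.mul (U_cont (n + 1))).sub (U_cont n)

theorem U_sin (θ : ℝ) : ∀ n : ℕ, U n (2 * Real.cos θ) * Real.sin θ = Real.sin ((n + 1) * θ)
  | 0 => by
    rw [Pool.Agent.H414.LT.U_zero]
    simp
  | 1 => by
    rw [Pool.Agent.H414.LT.U_one]
    have : (((1 : ℕ) : ℝ) + 1) * θ = 2 * θ := by push_cast; ring
    rw [this, Real.sin_two_mul]
    ring
  | n + 2 => by
    have h1 := U_sin θ (n + 1)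
    have h2 := U_sin θ n
    rw [Pool.Agent.H414.LT.U_add_two, sub_mul, h2, mul_assoc, h1]
    have e1 : (((n + 2 : ℕ) : ℝ) + 1) * θ = ((n : ℝ) + 2) * θ + θ := by push_cast; ring
    have e2 : ((n : ℝ) + 1) * θ = ((n : ℝ) + 2) * θ - θ := by ring
    have e3 : (((n + 1 : ℕ) : ℝ) + 1) * θ = ((n : ℝ) + 2) * θ := by push_cast; ring
    rw [e1, e2, e3, Real.sin_add, Real.sin_sub]
    ring

theorem U_bdd {y : ℝ} (hy : |y| < 2) : ∃ K : ℝ, ∀ n, |U n y| ≤ K := by
  rw [abs_lt] at hy
  set θ := Real.arccos (y / 2) with hθ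
  have hc : 2 * Real.cos θ = y := by
    rw [hθ, Real.cos_arccos (by linarith) (by linarith)]
    ring
  have hs : 0 < Real.sin θ := by
    rw [hθ, Real.sin_arccos]
    apply Real.sqrt_pos.2
    nlinarith
  refine ⟨1 / Real.sin θ, fun n => ?_⟩
  have h1 := U_sin θ n
  rw [hc] at h1
  rw [le_div_iff₀ hs]
  calc |U n y| * Real.sin θ = |U n y * Real.sin θ| := by rw [abs_mul, abs_of_pos hs]
    _ ≤ 1 := by rw [h1]; exact Real.abs_sin_le_one _

theorem abs_trunc_le (y : ℝ) : |(trunc y : ℝ)| ≤ |y| := by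
  unfold trunc
  split_ifs with h
  · rw [abs_of_nonneg h, abs_of_nonneg (by exact_mod_cast Int.floor_nonneg.2 h)]
    exact Int.floor_le y
  · push Not at h
    have h1 : (⌈y⌉ : ℝ) ≤ 0 := by
      have : ⌈y⌉ ≤ 0 := Int.ceil_le.2 (by simpa using h.le)
      exact_mod_cast this
    rw [abs_of_neg h, abs_of_nonpos h1]
    have := Int.le_ceil y
    linarith

theorem trunc_meas : Measurable trunc := by
  unfold trunc
  exact Measurable.ite measurableSet_Ici Int.measurable_floor Int.measurable_ceil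

theorem bv_meas (k : ℕ) : Measurable (bv k) := by
  unfold bv
  exact trunc_meas.comp (by fun_prop)

theorem pr_prime (k : ℕ) : (pr k).Prime := Nat.prime_nth_prime k

theorem bv_lt (k : ℕ) (x : ℝ) : (bv k x) ^ 2 < 4 * (pr k : ℤ) := by
  have h1 : |(bv k x : ℝ)| ≤ 2 * √(pr k : ℝ) := by
    refine (abs_trunc_le _).trans ?_
    rw [abs_mul, abs_of_nonneg (by positivity)]
    exact mul_le_of_le_one_right (by positivity) (Real.abs_cos_le_one _)
  have h2 : (bv k x : ℝ) ^ 2 ≤ 4 * (pr k : ℝ) := by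
    rw [← sq_abs]
    calc |(bv k x : ℝ)| ^ 2 ≤ (2 * √(pr k : ℝ)) ^ 2 := pow_le_pow_left₀ (abs_nonneg _) h1 2
      _ = 4 * (pr k : ℝ) := by
        rw [mul_pow, Real.sq_sqrt (Nat.cast_nonneg _)]
        norm_num
  exact Pool.Agent.H414.LT.not_sq (pr_prime k) (by exact_mod_cast h2)

theorem bv_le (k : ℕ) (x : ℝ) : |bv k x| ≤ 2 * (pr k : ℤ) := by
  have h1 := bv_lt k x
  have h2 : (1 : ℤ) ≤ pr k := by exact_mod_cast (pr_prime k).one_lt.le
  apply abs_le_of_sq_le_sq' _ (by positivity) |> abs_le.2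
  nlinarith

theorem tau_lt (k : ℕ) (x : ℝ) : |(bv k x : ℝ) / √(pr k : ℝ)| < 2 := by
  have hp : (0 : ℝ) < pr k := by exact_mod_cast (pr_prime k).pos
  have hs : 0 < √(pr k : ℝ) := Real.sqrt_pos.2 hp
  rw [abs_div, abs_of_pos hs, div_lt_iff₀ hs]
  apply lt_of_pow_lt_pow_left₀ 2 (by positivity)
  rw [sq_abs, mul_pow, Real.sq_sqrt hp.le]
  have h1 := bv_lt k x
  have h2 : ((bv k x : ℝ)) ^ 2 < 4 * (pr k : ℝ) := by exact_mod_cast h1
  linarith

/-! ### finite outcome spaces -/

section fin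

variable {Ω : Type} [MeasurableSpace Ω] (μ : Measure Ω) [IsProbabilityMeasure μ] (X : ℕ → Ω → ℝ)

/-- the vector of the integers in the block `b` -/
noncomputable def vec (b : ℕ) (w : Ω) (l : Fin (m b)) : ℤ := bv (t b + l) (X l w)

/-- the outcomes -/
abbrev O (b : ℕ) : Type := Set.range (vec X b)

theorem O_fin (b : ℕ) : (Set.range (vec X b)).Finite := by
  refine (Set.finite_Icc (fun l : Fin (m b) => -(2 * (pr (t b + l) : ℤ)))
    (fun l : Fin (m b) => 2 * (pr (t b + l) : ℤ))).subset ?_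
  rintro _ ⟨w, rfl⟩
  exact ⟨fun l => (abs_le.1 (bv_le _ _)).1, fun l => (abs_le.1 (bv_le _ _)).2⟩

noncomputable instance (b : ℕ) : Fintype (O X b) := (O_fin X b).fintype

/-- the outcome of `w` -/
noncomputable def vec' (b : ℕ) (w : Ω) : O X b := ⟨vec X b w, w, rfl⟩

/-- a representative -/
noncomputable def rep (b : ℕ) (o : O X b) : Ω := o.2.choose

theorem rep_spec (b : ℕ) (o : O X b) : vec X b (rep X b o) = o.1 := o.2.choose_spec

variable {X} in
theorem vec_meas (hX : ∀ i, Measurable (X i)) (b : ℕ) : Measurable (vec' X b) := by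
  apply Measurable.subtype_mk
  exact measurable_pi_lambda _ fun l => (bv_meas _).comp (hX l)

/-- the probabilities -/
noncomputable def pi' (b : ℕ) (o : O X b) : ℝ := μ.real (vec' X b ⁻¹' {o})

variable {μ X}

/-- functions of the vector -/
theorem vec_int (hX : ∀ i, Measurable (X i)) (b : ℕ) {E : Type} [NormedAddCommGroup E]
    [NormedSpace ℝ E] [CompleteSpace E] (G : Ω → E)
    (hG : ∀ w w', vec X b w = vec X b w' → G w = G w') :
    Integrable G μ ∧ ∫ w, G w ∂μ = ∑ o, pi' μ X b o • G (rep X b o) := by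
  have hm := vec_meas hX b
  have e : G = (fun o => G (rep X b o)) ∘ vec' X b := by
    funext w
    exact hG _ _ (by rw [rep_spec]; rfl)
  have : IsProbabilityMeasure (μ.map (vec' X b)) := Measure.isProbabilityMeasure_map hm.aemeasurable
  have hint : Integrable (fun o => G (rep X b o)) (μ.map (vec' X b)) := Integrable.of_finite
  constructor
  · rw [e]
    exact hint.comp_measurable hm
  · calc ∫ w, G w ∂μ = ∫ w, (fun o => G (rep X b o)) (vec' X b w) ∂μ := by
          refine integral_congr_ae (ae_of_all _ fun w => ?_)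
          exact congrFun e w
      _ = ∫ o, G (rep X b o) ∂(μ.map (vec' X b)) := by
          rw [integral_map hm.aemeasurable hint.aestronglyMeasurable]
      _ = ∑ o, pi' μ X b o • G (rep X b o) := by
          rw [integral_fintype hint]
          refine Finset.sum_congr rfl fun o _ => ?_
          unfold pi'
          rw [map_measureReal_apply hm (measurableSet_singleton o)]

end fin

/-- Abel summation -/
theorem abel (x : ℕ → ℂ) (D : ℝ) (hD : 0 ≤ D) (h : ∀ N : ℕ, ‖∑ b ∈ range N, x b‖ ≤ D * √(N : ℝ))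
    (N : ℕ) : ‖∑ b ∈ range N, (m b : ℂ) * x b‖ ≤ 2 * D * m N * √(N : ℝ) := by
  have hm : Monotone m := fun a b hab => Nat.log_mono_right (by omega)
  have hf : ∀ N : ℕ, ∑ b ∈ range N, (m b : ℂ) * x b = (m N : ℂ) * ∑ b ∈ range N, x b -
      ∑ b ∈ range N, ((m (b + 1) : ℂ) - m b) * ∑ b' ∈ range (b + 1), x b' := by
    intro N
    induction N with
    | zero => simp
    | succ N ih =>
      rw [sum_range_succ, ih, sum_range_succ (fun b => ((m (b + 1) : ℂ) - m b) * _), sum_range_succ x]
      ring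
  have hg : ∀ N : ℕ, ∑ b ∈ range N, ((m (b + 1) : ℝ) - m b) = (m N : ℝ) - m 0 :=
    fun N => Finset.sum_range_sub (fun b => (m b : ℝ)) N
  rw [hf]
  calc _ ≤ ‖(m N : ℂ) * ∑ b ∈ range N, x b‖ +
        ‖∑ b ∈ range N, ((m (b + 1) : ℂ) - m b) * ∑ b' ∈ range (b + 1), x b'‖ := norm_sub_le _ _
    _ ≤ m N * (D * √(N : ℝ)) + ∑ b ∈ range N, ((m (b + 1) : ℝ) - m b) * (D * √(N : ℝ)) := by
        refine add_le_add ?_ ?_
        · rw [norm_mul, Complex.norm_natCast]
          exact mul_le_mul_of_nonneg_left (h N) (Nat.cast_nonneg _)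
        · refine (norm_sum_le _ _).trans (Finset.sum_le_sum fun b hb => ?_)
          rw [norm_mul]
          have h1 : ‖((m (b + 1) : ℂ) - m b)‖ = (m (b + 1) : ℝ) - m b := by
            have h2 : ((m (b + 1) : ℂ) - m b) = (((m (b + 1) : ℝ) - m b : ℝ) : ℂ) := by push_cast; ring
            rw [h2, Complex.norm_real, Real.norm_of_nonneg]
            have : (m b : ℝ) ≤ m (b + 1) := by exact_mod_cast hm (Nat.le_succ b)
            linarith
          rw [h1]
          refine mul_le_mul_of_nonneg_left ((h (b + 1)).trans ?_) ?_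
          · refine mul_le_mul_of_nonneg_left (Real.sqrt_le_sqrt ?_) hD
            exact_mod_cast Nat.succ_le_of_lt (Finset.mem_range.1 hb)
          · have : (m b : ℝ) ≤ m (b + 1) := by exact_mod_cast hm (Nat.le_succ b)
            linarith
    _ = m N * (D * √(N : ℝ)) + ((m N : ℝ) - m 0) * (D * √(N : ℝ)) := by
        rw [← Finset.sum_mul, hg]
    _ ≤ 2 * D * m N * √(N : ℝ) := by
        have h3 : (0 : ℝ) ≤ m 0 * (D * √(N : ℝ)) := by positivity
        nlinarith

theorem m_pos (b : ℕ) : 0 < m b := Nat.log_pos (by norm_num) (by omega)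

/-- the tests -/
noncomputable def R {Ω : Type} (X : ℕ → Ω → ℝ) (c : ℕ → ℕ → ℂ) (s : ℕ → ℕ)
    (F : ∀ i, (Fin (s i) → ℝ) → ℝ) (b : ℕ) (j : ℕ × ℕ) (w : Ω) : ℂ :=
  if j.2 = 0 then (((1 / (m b : ℝ)) * ∑ l ∈ (range (m b)).filter (fun l => l + s j.1 ≤ m b),
      F j.1 (fun k => av (t b + l + k) (X (l + k) w)) : ℝ) : ℂ)
  else (1 / (m b : ℂ)) * ∑ l ∈ range (m b), c j.1 (pr (t b + l)) *
      ((U j.2 ((bv (t b + l) (X l w) : ℝ) / √(pr (t b + l) : ℝ)) : ℝ) : ℂ)

/-- the weights -/
noncomputable def wt (j : ℕ × ℕ) : ℝ := (1 / 2) ^ j.1 * (1 / ((j.2 : ℝ) + 1) ^ 2)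

theorem wt_pos (j : ℕ × ℕ) : 0 < wt j := by
  unfold wt
  positivity

theorem wt_sum : Summable wt :=
  Summable.mul_of_nonneg (f := fun e : ℕ => ((1 : ℝ) / 2) ^ e)
    (g := fun d : ℕ => 1 / ((d : ℝ) + 1) ^ 2)
    (summable_geometric_of_lt_one (by norm_num) (by norm_num)) Pool.Agent.H414.LT.summable_sq
    (fun e => pow_nonneg (by norm_num) _) (fun d => div_nonneg zero_le_one (sq_nonneg _))

end Sel

open Sel in
theorem sel (hENG : LT.S_ENG) (hMEAN : S_MEAN) : S_SEL := by
  intro Ω _ μ X hX c hc s F hF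
  have := hX.prob
  have hXm := hX.meas
  have hm0 : ∀ b, (0 : ℝ) < m b := fun b => by exact_mod_cast m_pos b
  have hmc : ∀ b, (m b : ℂ) ≠ 0 := fun b => by exact_mod_cast (m_pos b).ne'
  -- dependence
  have hdb : ∀ b l, l < m b → ∀ w w', vec X b w = vec X b w' →
      bv (t b + l) (X l w) = bv (t b + l) (X l w') := fun b l hl w w' h => congrFun h ⟨l, hl⟩
  have hdU : ∀ b l, l < m b → ∀ n w w', vec X b w = vec X b w' →
      U n ((bv (t b + l) (X l w) : ℝ) / √(pr (t b + l) : ℝ)) =
        U n ((bv (t b + l) (X l w') : ℝ) / √(pr (t b + l) : ℝ)) := by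
    intro b l hl n w w' h
    rw [hdb b l hl w w' h]
  have hdF : ∀ b i l, l + s i ≤ m b → ∀ w w', vec X b w = vec X b w' →
      F i (fun k => av (t b + l + k) (X (l + k) w)) = F i (fun k => av (t b + l + k) (X (l + k) w')) := by
    intro b i l hl w w' h
    congr 1
    funext k
    unfold av
    have hk := k.2
    rw [add_assoc, hdb b (l + k) (by omega) w w' h]
  have hdR : ∀ b j w w', vec X b w = vec X b w' → R X c s F b j w = R X c s F b j w' := by
    intro b j w w' h
    unfold R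
    split_ifs with hj
    · congr 2
      refine Finset.sum_congr rfl fun l hl => ?_
      exact hdF b j.1 l (Finset.mem_filter.1 hl).2 w w' h
    · congr 1
      refine Finset.sum_congr rfl fun l hl => ?_
      rw [hdU b l (Finset.mem_range.1 hl) j.2 w w' h]
  -- second moments
  have hU2 : ∀ b l n, 1 ≤ n → ∫ w, (U n ((bv (t b + l) (X l w) : ℝ) / √(pr (t b + l) : ℝ))) ^ 2 ∂μ ≤ 4 := by
    intro b l n hn
    have hr : 1 ≤ √(pr (t b + l) : ℝ) := by
      rw [Real.one_le_sqrt]
      exact_mod_cast (pr_prime (t b + l)).one_lt.le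
    have h1 := (hMEAN n (√(pr (t b + l) : ℝ)) hn hr).2
    refine le_trans (le_of_eq ?_) h1
    rw [← hX.law l, integral_map (hXm l).aemeasurable]
    · rfl
    · have h2 : Measurable fun x : ℝ => U n ((trunc (2 * √(pr (t b + l) : ℝ) * Real.cos (Real.pi * x)) : ℝ) /
          √(pr (t b + l) : ℝ)) := by
        refine (U_cont n).measurable.comp ?_
        refine Measurable.div_const ?_ _
        exact (measurable_from_top (f := fun z : ℤ => (z : ℝ))).comp (bv_meas (t b + l))
      exact (h2.pow_const 2).aestronglyMeasurable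
  -- the probabilities
  have h0 : ∀ b (o : O X b), 0 ≤ pi' μ X b o := fun b o => measureReal_nonneg
  have h1 : ∀ b, ∑ o : O X b, pi' μ X b o = 1 := by
    intro b
    have h2 := (vec_int (μ := μ) hXm b (fun _ : Ω => (1 : ℝ)) (fun _ _ _ => rfl)).2
    simp only [integral_const, smul_eq_mul, mul_one, probReal_univ] at h2
    exact h2.symm
  have hRint : ∀ b j, Integrable (R X c s F b j) μ ∧
      ∑ o, (pi' μ X b o : ℂ) * R X c s F b j (rep X b o) = ∫ w, R X c s F b j w ∂μ := by
    intro b j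
    obtain ⟨g1, g2⟩ := vec_int (μ := μ) hXm b (R X c s F b j) (hdR b j)
    refine ⟨g1, ?_⟩
    rw [g2]
    refine Finset.sum_congr rfl fun o _ => ?_
    rw [Complex.real_smul]
  have hR0 : ∀ b i w, ‖R X c s F b (i, 0) w‖ ≤ 1 := by
    intro b i w
    unfold R
    rw [if_pos rfl, Complex.norm_real, Real.norm_eq_abs, abs_mul, abs_of_pos (by have := hm0 b; positivity)]
    have g1 : |∑ l ∈ (range (m b)).filter (fun l => l + s i ≤ m b),
        F i (fun k => av (t b + l + k) (X (l + k) w))| ≤ m b := by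
      refine (Finset.abs_sum_le_sum_abs _ _).trans ?_
      refine (Finset.sum_le_sum fun l _ => hF i _).trans ?_
      rw [Finset.sum_const, nsmul_eq_mul, mul_one]
      have := Finset.card_filter_le (range (m b)) (fun l => l + s i ≤ m b)
      rw [Finset.card_range] at this
      exact_mod_cast this
    rw [one_div, inv_mul_le_iff₀ (hm0 b), mul_one]
    exact g1
  have hR1 : ∀ b i n w, n ≠ 0 → ‖R X c s F b (i, n) w‖ ≤ (1 / (m b : ℝ)) * ∑ l ∈ range (m b),
      |U n ((bv (t b + l) (X l w) : ℝ) / √(pr (t b + l) : ℝ))| := by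
    intro b i n w hn
    unfold R
    rw [if_neg hn, norm_mul, norm_div, norm_one, Complex.norm_natCast]
    refine mul_le_mul_of_nonneg_left ?_ (by have := hm0 b; positivity)
    refine (norm_sum_le _ _).trans (Finset.sum_le_sum fun l _ => ?_)
    rw [norm_mul, Complex.norm_real, Real.norm_eq_abs]
    exact mul_le_of_le_one_left (abs_nonneg _) (hc _ _)
  have hUi : ∀ b l, l < m b → ∀ n,
      Integrable (fun w => U n ((bv (t b + l) (X l w) : ℝ) / √(pr (t b + l) : ℝ))) μ :=
    fun b l hl n => (vec_int (μ := μ) hXm b _ (hdU b l hl n)).1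
  have hU2i : ∀ b l, l < m b → ∀ n,
      Integrable (fun w => (U n ((bv (t b + l) (X l w) : ℝ) / √(pr (t b + l) : ℝ))) ^ 2) μ :=
    fun b l hl n => (vec_int (μ := μ) hXm b _ (fun w w' h => by rw [hdU b l hl n w w' h])).1
  have hFi : ∀ b i l, l + s i ≤ m b → Integrable (fun w => F i (fun k => av (t b + l + k) (X (l + k) w))) μ :=
    fun b i l hl => (vec_int (μ := μ) hXm b _ (hdF b i l hl)).1
  have hsec : ∀ b (j : ℕ × ℕ), ∑ o, pi' μ X b o * ‖R X c s F b j (rep X b o)‖ ^ 2 ≤ 4 := by
    intro b j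
    obtain ⟨g1, g2⟩ := vec_int (μ := μ) hXm b (fun w => ‖R X c s F b j w‖ ^ 2)
      (fun w w' h => by rw [hdR b j w w' h])
    simp only [smul_eq_mul] at g2
    rw [← g2]
    obtain ⟨i, n⟩ := j
    by_cases hn : n = 0
    · subst hn
      calc ∫ w, ‖R X c s F b (i, 0) w‖ ^ 2 ∂μ ≤ ∫ w, (1 : ℝ) ∂μ := by
            refine integral_mono g1 (integrable_const _) fun w => ?_
            exact pow_le_one₀ (norm_nonneg _) (hR0 b i w)
        _ ≤ 4 := by simp
    · have hmb := hm0 b
      calc ∫ w, ‖R X c s F b (i, n) w‖ ^ 2 ∂μ ≤ ∫ w, (1 / (m b : ℝ)) * ∑ l ∈ range (m b),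
            (U n ((bv (t b + l) (X l w) : ℝ) / √(pr (t b + l) : ℝ))) ^ 2 ∂μ := by
            refine integral_mono g1 ?_ fun w => ?_
            · refine Integrable.const_mul ?_ _
              exact integrable_finsetSum _ fun l hl => hU2i b l (Finset.mem_range.1 hl) n
            · have e1 := pow_le_pow_left₀ (norm_nonneg _) (hR1 b i n w hn) 2
              refine e1.trans ?_
              rw [mul_pow]
              have e2 := sq_sum_le_card_mul_sum_sq (s := range (m b))
                (f := fun l => |U n ((bv (t b + l) (X l w) : ℝ) / √(pr (t b + l) : ℝ))|)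
              simp only [Finset.card_range, sq_abs] at e2
              calc (1 / (m b : ℝ)) ^ 2 * (∑ l ∈ range (m b),
                    |U n ((bv (t b + l) (X l w) : ℝ) / √(pr (t b + l) : ℝ))|) ^ 2
                  ≤ (1 / (m b : ℝ)) ^ 2 * ((m b : ℝ) * ∑ l ∈ range (m b),
                    (U n ((bv (t b + l) (X l w) : ℝ) / √(pr (t b + l) : ℝ))) ^ 2) :=
                    mul_le_mul_of_nonneg_left e2 (by positivity)
                _ = _ := by
                    field_simp
        _ = (1 / (m b : ℝ)) * ∑ l ∈ range (m b), ∫ w,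
            (U n ((bv (t b + l) (X l w) : ℝ) / √(pr (t b + l) : ℝ))) ^ 2 ∂μ := by
            rw [integral_const_mul, integral_finsetSum]
            exact fun l hl => hU2i b l (Finset.mem_range.1 hl) n
        _ ≤ (1 / (m b : ℝ)) * ∑ l ∈ range (m b), (4 : ℝ) := by
            refine mul_le_mul_of_nonneg_left (Finset.sum_le_sum fun l _ => hU2 b l n ?_) (by positivity)
            omega
        _ = 4 := by
            rw [Finset.sum_const, Finset.card_range, nsmul_eq_mul]
            field_simp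
  -- uniform bounds
  have hKb : ∀ b (o : O X b), ∃ K : ℝ, 0 ≤ K ∧ ∀ j, ‖R X c s F b j (rep X b o)‖ ≤ K := by
    intro b o
    have hK : ∀ l, ∃ K : ℝ, ∀ n, |U n ((bv (t b + l) (X l (rep X b o)) : ℝ) / √(pr (t b + l) : ℝ))| ≤ K :=
      fun l => U_bdd (tau_lt _ _)
    choose K hK using hK
    have hK0 : ∀ l, 0 ≤ K l := fun l => (abs_nonneg _).trans (hK l 0)
    have hmb := hm0 b
    have hS0 : 0 ≤ (1 / (m b : ℝ)) * ∑ l ∈ range (m b), K l :=
      mul_nonneg (by positivity) (Finset.sum_nonneg fun l _ => hK0 l)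
    refine ⟨(1 / (m b : ℝ)) * ∑ l ∈ range (m b), K l + 1, by linarith, ?_⟩
    rintro ⟨i, n⟩
    by_cases hn : n = 0
    · subst hn
      have := hR0 b i (rep X b o)
      linarith
    · have g1 := hR1 b i n (rep X b o) hn
      have g2 : (1 / (m b : ℝ)) * ∑ l ∈ range (m b),
          |U n ((bv (t b + l) (X l (rep X b o)) : ℝ) / √(pr (t b + l) : ℝ))| ≤
          (1 / (m b : ℝ)) * ∑ l ∈ range (m b), K l :=
        mul_le_mul_of_nonneg_left (Finset.sum_le_sum fun l _ => hK l n) (by positivity)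
      linarith
  choose K hK0 hK using hKb
  obtain ⟨o, ho⟩ := Pool.Agent.H414.LT.eng_raw hENG (ℕ × ℕ) (fun b => O X b) (fun b o => pi' μ X b o)
    (fun b j o => R X c s F b j (rep X b o)) wt (fun _ => 4) h0 h1 wt_pos (fun _ => by norm_num)
    wt_sum (wt_sum.mul_right 4) hsec (fun b => ∑ o, K b o)
    (fun b j o => (hK b o j).trans (Finset.single_le_sum (f := fun o => K b o)
      (fun o _ => hK0 b o) (Finset.mem_univ o)))
  set Wt := ∑' i, wt i * 4 with hWt
  have hWt0 : 0 ≤ Wt := tsum_nonneg fun i => mul_nonneg (wt_pos i).le (by norm_num)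
  have hmain : ∀ (j : ℕ × ℕ) (N : ℕ), ‖∑ b ∈ range N, (m b : ℂ) * (R X c s F b j (rep X b (o b)) -
      ∫ w, R X c s F b j w ∂μ)‖ ≤ 2 * (√(Wt * 2 ^ j.1) * ((j.2 : ℝ) + 1)) * m N * √(N : ℝ) := by
    intro j N
    refine abel _ _ (by positivity) (fun N => ?_) N
    have g1 := ho j N
    simp only [(hRint _ j).2] at g1
    refine (Real.le_sqrt_of_sq_le g1).trans (le_of_eq ?_)
    have e1 : Wt / wt j * (N : ℝ) = (Wt * 2 ^ j.1) * (((j.2 : ℝ) + 1) ^ 2 * (N : ℝ)) := by
      unfold wt
      rw [one_div, one_div, inv_pow]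
      field_simp
    rw [e1, Real.sqrt_mul (by positivity : 0 ≤ Wt * 2 ^ j.1),
      Real.sqrt_mul (by positivity : 0 ≤ ((j.2 : ℝ) + 1) ^ 2), Real.sqrt_sq (by positivity)]
    ring
  refine ⟨fun b => rep X b (o b), fun i => ⟨2 * √(Wt * 2 ^ i), fun n N hn => ?_⟩,
    fun i => ⟨2 * √(Wt * 2 ^ i), fun N => ?_⟩⟩
  · have g1 := hmain (i, n) N
    have hn0 : n ≠ 0 := by omega
    have e1 : ∀ b, (m b : ℂ) * (R X c s F b (i, n) (rep X b (o b)) - ∫ w, R X c s F b (i, n) w ∂μ) =
        ∑ l ∈ range (m b), c i (pr (t b + l)) *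
        (((U n ((bv (t b + l) (X l (rep X b (o b))) : ℝ) / √(pr (t b + l) : ℝ)) -
          ∫ w, U n ((bv (t b + l) (X l w) : ℝ) / √(pr (t b + l) : ℝ)) ∂μ : ℝ)) : ℂ) := by
      intro b
      have e2 : ∫ w, R X c s F b (i, n) w ∂μ = (1 / (m b : ℂ)) * ∑ l ∈ range (m b), c i (pr (t b + l)) *
          ((∫ w, U n ((bv (t b + l) (X l w) : ℝ) / √(pr (t b + l) : ℝ)) ∂μ : ℝ) : ℂ) := by
        unfold R
        simp only [if_neg hn0]
        rw [integral_const_mul, integral_finsetSum]
        · congr 1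
          refine Finset.sum_congr rfl fun l _ => ?_
          rw [integral_const_mul, integral_complex_ofReal]
        · intro l hl
          exact ((hUi b l (Finset.mem_range.1 hl) n).ofReal).const_mul _
      rw [e2]
      unfold R
      simp only [if_neg hn0]
      have := hmc b
      rw [← mul_sub, ← mul_assoc, mul_one_div_cancel this, one_mul, ← Finset.sum_sub_distrib]
      refine Finset.sum_congr rfl fun l _ => ?_
      push_cast
      ring
    simp only [e1] at g1
    refine g1.trans (le_of_eq ?_)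
    ring
  · have g1 := hmain (i, 0) N
    have e1 : ∀ b, (m b : ℂ) * (R X c s F b (i, 0) (rep X b (o b)) - ∫ w, R X c s F b (i, 0) w ∂μ) =
        ((∑ l ∈ (range (m b)).filter (fun l => l + s i ≤ m b),
        (F i (fun j => av (t b + l + j) (X (l + j) (rep X b (o b)))) -
          ∫ w, F i (fun j => av (t b + l + j) (X (l + j) w)) ∂μ) : ℝ) : ℂ) := by
      intro b
      have e2 : ∫ w, R X c s F b (i, 0) w ∂μ = (((1 / (m b : ℝ)) *
          ∑ l ∈ (range (m b)).filter (fun l => l + s i ≤ m b),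
          ∫ w, F i (fun j => av (t b + l + j) (X (l + j) w)) ∂μ : ℝ) : ℂ) := by
        unfold R
        simp only [if_true]
        rw [integral_complex_ofReal, integral_const_mul, integral_finsetSum]
        intro l hl
        exact hFi b i l (Finset.mem_filter.1 hl).2
      rw [e2]
      unfold R
      simp only [if_true]
      have := hmc b
      rw [← Complex.ofReal_sub, ← mul_sub, ← Finset.sum_sub_distrib, Complex.ofReal_mul, ← mul_assoc]
      have e3 : (m b : ℂ) * ((1 / (m b : ℝ) : ℝ) : ℂ) = 1 := by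
        push_cast
        rw [mul_one_div_cancel this]
      rw [e3, one_mul]
    simp only [e1] at g1
    rw [← Complex.ofReal_sum, Complex.norm_real, Real.norm_eq_abs] at g1
    refine g1.trans (le_of_eq ?_)
    simp

end Pool.Agent.H414.CA

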