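import Pool.Agent.H414.CA.Defs
import Pool.Agent.H414.LT.Spec

/-!
The statements which are put together in the project CA. Paper proofs are in the docstrings. Every
`S_X` is true and is to be proved as a theorem (with the hypotheses given in the task).
-/

set_option autoImplicit false

namespace Pool.Agent.H414.CA

open MeasureTheory Finset Filter Topology
open Pool.Agent.H414.LT (primesUpTo U tr IsSystem)

/-- the `k`-th prime -/
noncomputable def pr (k : ℕ) : ℕ := Nat.nth Nat.Prime k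

/-- the length of the `n`-th block of indices -/
def m (n : ℕ) : ℕ := Nat.log 2 (n + 2)

/-- the start of the `n`-th block of indices: the block consists of the `t n + l`, `l < m n` -/
def t (n : ℕ) : ℕ := ∑ i ∈ range n, m i

/-- rounding towards `0` -/
noncomputable def trunc (y : ℝ) : ℤ := if 0 ≤ y then ⌊y⌋ else ⌈y⌉

/-- the integer at the prime `pr k` which comes from the angle `x` -/
noncomputable def bv (k : ℕ) (x : ℝ) : ℤ := trunc (2 * √(pr k : ℝ) * Real.cos (Real.pi * x))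

/-- its angle -/
noncomputable def av (k : ℕ) (x : ℝ) : ℝ := Real.arccos ((bv k x : ℝ) / (2 * √(pr k : ℝ))) / Real.pi

/-- MEAN AND SECOND MOMENT. Let `T = 2 cos (π x)`, `s = trunc (r T) / r`: `|s| ≤ |T|`, `|s - T| ≤ 1 / r`. `∫ U n T dST = 0` for
`n ≥ 1` (`∫_0^1 sin ((n+1) π x) sin (π x) dx = 0`, `S_US`). By `S_UL` (for `|T| < 2`, i.e. for almost all `x`)
`|U n s - U n T| ≤ (1 / r) n (9 / (4 - T^2))`, and `4 - T^2 = 4 sin^2 (π x)`, so `∫ 1 / (4 - T^2) dST = ∫_0^1 2/4 = 1/2`: the first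
integral is at most `4.5 n / r`. `U n s ^ 2 ≤ 4 / (4 - s^2) ≤ 4 / (4 - T^2)` by `S_UB`, so the second is at most `2`. (The
functions of `x` are measurable and bounded: `trunc` is measurable, `U n` continuous, `|U n s| ≤ n + 1`.) -/
def S_MEAN : Prop := ∀ (n : ℕ) (r : ℝ), 1 ≤ n → 1 ≤ r →
  |∫ x, U n ((trunc (2 * r * Real.cos (Real.pi * x)) : ℝ) / r) ∂ST| ≤ 5 * n / r ∧
  ∫ x, U n ((trunc (2 * r * Real.cos (Real.pi * x)) : ℝ) / r) ^ 2 ∂ST ≤ 4

/-- SELECTION. `LT.S_ENG` (`Pool.Agent.H414.LT.eng`) with: the `b`-th outcome space is the set of the possible vectors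
`v = (bv (t b + l) (X l ω))_(l < m b)` (a finite set of vectors of integers, `|v l| ≤ 2 √(pr (t b + l))`; as a type e.g.
`Fin (m b) → Fin (B b)` or a subtype of a `Finset`), `π v = μ.real {ω | vector = v}` (the `bv k (X l ω)` are measurable
functions of `ω`). Tests: `(i, n)`, `n ≥ 1`: `φ = (1 / m b) ∑_{l < m b} c i (pr (t b + l)) (U n (v l / √(pr (t b + l))) - mean)`, weight
`1 / (2^i (n + 1)^2)`, second moment at most `C` (Cauchy-Schwarz and `S_MEAN`, `|c| ≤ 1`); and `i`: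
`φ = (1 / m b) ∑_{l + s i ≤ m b} (F i (angles of v (l + j), j < s i) - mean)`, weight `1 / 2^i`, second moment at most `4`. The
result: for each test `|∑_{b < N} φ_b| ≤ C' √(N / w)` for all `N`, i.e. `≤ C'' (n + 1) √N` for the first ones. As `m` is
nondecreasing, Abel summation gives `|∑_{b < N} m b φ_b| ≤ 2 m N max_{N' ≤ N} |∑_{b < N'} φ_b|`. A vector of positive
probability is the vector of some `ω b : Ω`. (The engine gives outcomes; for outcomes of probability `0` there may be no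
`ω`: take as outcome space only the vectors with positive probability.) -/
def S_SEL : Prop := ∀ (Ω : Type) [MeasurableSpace Ω] (μ : Measure Ω) (X : ℕ → Ω → ℝ), IsProc μ X →
  ∀ c : ℕ → ℕ → ℂ, (∀ i p, ‖c i p‖ ≤ 1) →
  ∀ (s : ℕ → ℕ) (F : ∀ i, (Fin (s i) → ℝ) → ℝ), (∀ i x, |F i x| ≤ 1) →
  ∃ ω : ℕ → Ω,
    (∀ i : ℕ, ∃ C : ℝ, ∀ n N : ℕ, 1 ≤ n →
      ‖∑ b ∈ range N, ∑ l ∈ range (m b), c i (pr (t b + l)) *
        (((U n ((bv (t b + l) (X l (ω b)) : ℝ) / √(pr (t b + l) : ℝ)) -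
          ∫ w, U n ((bv (t b + l) (X l w) : ℝ) / √(pr (t b + l) : ℝ)) ∂μ : ℝ)) : ℂ)‖ ≤
        C * ((n : ℝ) + 1) * m N * √(N : ℝ)) ∧
    ∀ i : ℕ, ∃ C : ℝ, ∀ N : ℕ,
      |∑ b ∈ range N, ∑ l ∈ (range (m b)).filter (fun l => l + s i ≤ m b),
        (F i (fun j => av (t b + l + j) (X (l + j) (ω b))) -
          ∫ w, F i (fun j => av (t b + l + j) (X (l + j) w)) ∂μ)| ≤ C * m N * √(N : ℝ)

/-- THE BOUNDS. `IsSystem`: `|trunc y| ≤ |y|`, so `a p ^ 2 ≤ 4 p`, and `a p ^ 2 = 4 p` is impossible for a prime `p` (`p` would be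
a square; `4 p = a^2`). Every `k` is `t b + l` with `l < m b` for exactly one pair (`t` is strictly increasing, `m b ≥ 1`).
`IsRH`: the integral over `μ` is one over `ST` (`IsProc.law`), so by `S_MEAN` it is at most `5 n / √p`, and
`∑_{p ≤ x} 1/√p ≤ 2 √x`. Let `N` be the largest number with `pr (t N) ≤ x` or so: the primes `≤ x` are the `pr k`, `k < t N`, and
at most `m N` further ones, for which `|U n| ≤ n + 1`. `N ≤ t N ≤ x`, `m N ≤ C_ε (x + 1)^ε`. -/
def S_RH : Prop := ∀ (Ω : Type) [MeasurableSpace Ω] (μ : Measure Ω) (X : ℕ → Ω → ℝ), IsProc μ X →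
  ∀ c : ℕ → ℕ → ℂ, (∀ i p, ‖c i p‖ ≤ 1) → ∀ (ω : ℕ → Ω) (a : ℕ → ℤ),
  (∀ b l, l < m b → a (pr (t b + l)) = bv (t b + l) (X l (ω b))) →
  (∀ i : ℕ, ∃ C : ℝ, ∀ n N : ℕ, 1 ≤ n →
      ‖∑ b ∈ range N, ∑ l ∈ range (m b), c i (pr (t b + l)) *
        (((U n ((bv (t b + l) (X l (ω b)) : ℝ) / √(pr (t b + l) : ℝ)) -
          ∫ w, U n ((bv (t b + l) (X l w) : ℝ) / √(pr (t b + l) : ℝ)) ∂μ : ℝ)) : ℂ)‖ ≤
        C * ((n : ℝ) + 1) * m N * √(N : ℝ)) →
  IsSystem a ∧ IsRH c a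

/-- THE LIMITS. For `x ∈ [0, 1]`, `|av k x - x| → 0` uniformly as `k → ∞`: `|bv k x / (2 √p) - cos (π x)| ≤ 1 / (2 √p)`, and `arccos`
is uniformly continuous, `arccos (cos (π x)) = π x`. `X l w ∈ [0, 1]` for almost all `w` (`IsProc.law`). As `F` is uniformly
continuous on `[0, 1]^s`, `∫ F(av (t b + l + j) (X (l + j) w)) → ∫ F(X (l + j) w) = ∫ F(X j w)` (`IsProc.stat`), uniformly in `l`, as
`b → ∞`. `angle a (t b + l + j) = av (t b + l + j) (X (l + j) (ω b))` for `l + j < m b`. For `t N ≤ K < t (N + 1)` the sum over `k < K`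
differs from the sum over the `k = t b + l`, `b < N`, `l + s ≤ m b`, by at most `s N + m N` terms, which is `o(t N)` (`t N / N → ∞`, since
`m → ∞`), and `m N √N = o(t N)`. -/
def S_LIM : Prop := ∀ (Ω : Type) [MeasurableSpace Ω] (μ : Measure Ω) (X : ℕ → Ω → ℝ), IsProc μ X →
  ∀ (ω : ℕ → Ω) (a : ℕ → ℤ), (∀ b l, l < m b → a (pr (t b + l)) = bv (t b + l) (X l (ω b))) →
  ∀ (s : ℕ) (F : (Fin s → ℝ) → ℝ), Continuous F → (∀ x, |F x| ≤ 1) →
  (∃ C : ℝ, ∀ N : ℕ, |∑ b ∈ range N, ∑ l ∈ (range (m b)).filter (fun l => l + s ≤ m b),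
        (F (fun j => av (t b + l + j) (X (l + j) (ω b))) -
          ∫ w, F (fun j => av (t b + l + j) (X (l + j) w)) ∂μ)| ≤ C * m N * √(N : ℝ)) →
  Tendsto (fun K : ℕ => (∑ k ∈ range K, F (fun j => angle a (k + j))) / K) atTop
    (𝓝 (∫ w, F (fun j => X j w) ∂μ))

/-- the monomials, on `[0, 1]^s` -/
noncomputable def mono (s : ℕ) (e : Fin s → ℕ) (x : Fin s → ℝ) : ℝ := ∏ j, (max 0 (min 1 (x j))) ^ e j

/-- DENSITY (Stone-Weierstrass). The finite linear combinations of the functions `mono s e` are dense in the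
continuous functions on the compact set `[0, 1]^s` (they are the polynomials there; e.g.
`ContinuousMap.subalgebra_topologicalClosure_eq_top_of_separatesPoints`). `angle a k ∈ [0, 1]`, and `X j w ∈ [0, 1]` for almost
all `w`. -/
def S_DEN : Prop := ∀ (Ω : Type) [MeasurableSpace Ω] (μ : Measure Ω) (X : ℕ → Ω → ℝ), IsProc μ X →
  ∀ (a : ℕ → ℤ) (s : ℕ), (∀ e : Fin s → ℕ,
    Tendsto (fun K : ℕ => (∑ k ∈ range K, mono s e (fun j => angle a (k + j))) / K) atTop
      (𝓝 (∫ w, mono s e (fun j => X j w) ∂μ))) →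
  ∀ f : (Fin s → ℝ) → ℝ, Continuous f →
    Tendsto (fun K : ℕ => (∑ k ∈ range K, f (fun j => angle a (k + j))) / K) atTop
      (𝓝 (∫ w, f (fun j => X j w) ∂μ))

/-- ALL STATIONARY LAWS ARE POSSIBLE. `S_SEL` with the countable family of all `mono s e` (`ℕ` is in bijection with the
pairs `(s, e)`, e.g. by `exists_surjective_nat` / `Encodable`/ `Denumerable`; `|mono| ≤ 1`, continuous), `a (pr (t b + l)) = bv (t b + l)
(X l (ω b))` (every `k` is `t b + l` with `l < m b` for exactly one pair; `pr` is injective; `a = 0` elsewhere), then `S_RH`, `S_LIM`,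
`S_DEN`. -/
def S_T6 : Prop := ∀ (Ω : Type) [MeasurableSpace Ω] (μ : Measure Ω) (X : ℕ → Ω → ℝ), IsProc μ X →
  ∀ c : ℕ → ℕ → ℂ, (∀ i p, ‖c i p‖ ≤ 1) → ∃ a : ℕ → ℤ, IsSystem a ∧ IsRH c a ∧
    ∀ (s : ℕ) (f : (Fin s → ℝ) → ℝ), Continuous f →
      Tendsto (fun K : ℕ => (∑ k ∈ range K, f (fun j => angle a (k + j))) / K) atTop
        (𝓝 (∫ w, f (fun j => X j w) ∂μ))

/-- CONVERSELY, if the bounds hold for `c 0 = 1` and the `s`-tuples have limit laws along `K → ∞`, then these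
come from a process with the Sato-Tate law; we only need: the one-dimensional law is the Sato-Tate law. For
continuous `f` on `[0, 1]`: `∑_{p ≤ x} U n (tr a p) = O(x^(3/4))` for each `n ≥ 1` and the number of the primes `≤ x` is
`≥ c x / log x` (`LT.S_CHE`), so the means of `U n (2 cos (π x_k))`, `k < K`, tend to `0 = ∫ U n (2 cos (π x)) dST`; the
linear combinations of the `U n` are the polynomials in `cos (π x)`, dense in the continuous functions on `[0, 1]`. -/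
def S_ONE : Prop := ∀ a : ℕ → ℤ, IsSystem a → IsRH (fun _ _ => 1) a → ∀ f : ℝ → ℝ, Continuous f →
  Tendsto (fun K : ℕ => (∑ k ∈ range K, f (angle a k)) / K) atTop (𝓝 (∫ x, f x ∂ST))

/-- EQUAL ANGLES. `S_T6` for `Ω = ℝ`, `μ = ST`, `X i x = x` (`ST` is a probability measure: `∫_0^1 2 sin^2 (π x) dx = 1`). With
`f (x, y) = min 1 (|x - y| / η)` the mean of `f(x_k, x_(k+1))` tends to `0`, so `|x_k - x_(k+1)| ≥ η` only for `o(K)` of the `k < K`. If
`x_k < 1/2 ≤ x_(k+1)` and `|x_k - x_(k+1)| < η` then `x_k ∈ (1/2 - η, 1/2)`, and the number of such `k < K` is at most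
`K (∫ g dST + o(1))` for a continuous `0 ≤ g ≤ 1` with `g = 1` there and `g = 0` off `(1/2 - 2 η, 1/2 + η)`, `∫ g dST ≤ 6 η`. -/
def S_EQ : Prop := ∀ c : ℕ → ℕ → ℂ, (∀ i p, ‖c i p‖ ≤ 1) → ∃ a : ℕ → ℤ, IsSystem a ∧ IsRH c a ∧
  Tendsto (fun K : ℕ => (∑ k ∈ range K, |angle a k - angle a (k + 1)|) / K) atTop (𝓝 0) ∧
  Tendsto (fun K : ℕ => (((range K).filter fun k => angle a k < 1 / 2 ∧ 1 / 2 ≤ angle a (k + 1)).card : ℝ) / K)
    atTop (𝓝 0)

end Pool.Agent.H414.CA
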