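import Pool.Agent.H414.CA.Spec

/-!
All stationary laws are possible.
-/

set_option autoImplicit false

namespace Pool.Agent.H414.CA

open MeasureTheory Finset Filter Topology
open Pool.Agent.H414.LT (primesUpTo U tr IsSystem)

namespace T6

theorem mono_cont (s : ℕ) (e : Fin s → ℕ) : Continuous (mono s e) := by
  unfold mono
  exact continuous_finsetProd _ fun j _ =>
    ((continuous_const.max (continuous_const.min (continuous_apply j))).pow _)

theorem mono_le (s : ℕ) (e : Fin s → ℕ) (x : Fin s → ℝ) : |mono s e x| ≤ 1 := by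
  unfold mono
  rw [Finset.abs_prod]
  refine Finset.prod_le_one (fun j _ => abs_nonneg _) fun j _ => ?_
  rw [abs_pow]
  refine pow_le_one₀ (abs_nonneg _) ?_
  rw [abs_of_nonneg (le_max_left _ _)]
  exact max_le zero_le_one (min_le_left _ _)

theorem t_succ (n : ℕ) : t (n + 1) = t n + m n := by
  unfold t
  rw [Finset.sum_range_succ]

theorem t_mono : Monotone t :=
  monotone_nat_of_le_succ fun n => by rw [t_succ]; exact Nat.le_add_right _ _

theorem block_lt {b l b' l' : ℕ} (hl : l < m b) (h : b < b') : t b + l < t b' + l' := by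
  have h1 : t (b + 1) ≤ t b' := t_mono h
  rw [t_succ] at h1
  omega

theorem block_unique {b l b' l' : ℕ} (hl : l < m b) (hl' : l' < m b')
    (h : t b + l = t b' + l') : b = b' ∧ l = l' := by
  have hb : b = b' := by
    rcases lt_trichotomy b b' with h1 | h1 | h1
    · have := block_lt (l' := l') hl h1
      omega
    · exact h1
    · have := block_lt (l' := l) hl' h1
      omega
  subst hb
  exact ⟨rfl, by omega⟩

end T6

open T6

theorem t6 (hSEL : S_SEL) (hRH : S_RH) (hLIM : S_LIM) (hDEN : S_DEN) : S_T6 := by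
  classical
  intro Ω _ μ X hX c hc
  obtain ⟨g, hg⟩ := exists_surjective_nat (Σ s : ℕ, (Fin s → ℕ))
  obtain ⟨ω, h1, h2⟩ := hSEL Ω μ X hX c hc (fun i => (g i).1) (fun i => mono (g i).1 (g i).2)
    (fun i x => mono_le _ _ x)
  let P : ℕ → Prop := fun p => ∃ q : ℕ × ℕ, q.2 < m q.1 ∧ pr (t q.1 + q.2) = p
  let a : ℕ → ℤ := fun p => if h : P p then
    bv (t h.choose.1 + h.choose.2) (X h.choose.2 (ω h.choose.1)) else 0
  have ha : ∀ b l, l < m b → a (pr (t b + l)) = bv (t b + l) (X l (ω b)) := by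
    intro b l hl
    have hP : P (pr (t b + l)) := ⟨(b, l), hl, rfl⟩
    have ha' : a (pr (t b + l)) = bv (t hP.choose.1 + hP.choose.2)
        (X hP.choose.2 (ω hP.choose.1)) := dif_pos hP
    obtain ⟨h3, h4⟩ := hP.choose_spec
    have h5 : t hP.choose.1 + hP.choose.2 = t b + l :=
      Nat.nth_injective Nat.infinite_setOfPred_prime h4
    obtain ⟨h6, h7⟩ := block_unique h3 hl h5
    rw [ha', h6, h7]
  obtain ⟨hsys, hrh⟩ := hRH Ω μ X hX c hc ω a ha h1
  refine ⟨a, hsys, hrh, fun s f hf => hDEN Ω μ X hX a s (fun e => ?_) f hf⟩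
  obtain ⟨i, hi⟩ := hg ⟨s, e⟩
  have h3 := hLIM Ω μ X hX ω a ha (g i).1 (mono (g i).1 (g i).2) (mono_cont _ _) (mono_le _ _) (h2 i)
  rw [hi] at h3
  exact h3

end Pool.Agent.H414.CA
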